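import Pool.Agent.Lib.MP_6f4751_nt.Level

/-! The double sums and the chain of identities between them. -/

set_option autoImplicit false

namespace Pool.Agent.Lib.MP_6f4751_nt

open Finset

theorem ch1 (n k : ℕ) : ((k : ℚ) + 1) * n.choose (k + 1) = (n - k) * n.choose k := by
  rcases lt_or_ge n k with h | h
  · rw [Nat.choose_eq_zero_of_lt h, Nat.choose_eq_zero_of_lt (by omega)]; simp
  · have := congrArg (Nat.cast : ℕ → ℚ) (Nat.choose_succ_right_eq n k)
    push_cast [Nat.cast_sub h] at this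
    linear_combination this

theorem ch2 (n k : ℕ) : ((k : ℚ) + 1) * (n + 1).choose (k + 1) = (n + 1) * n.choose k := by
  have := congrArg (Nat.cast : ℕ → ℚ) (Nat.add_one_mul_choose_eq n k)
  push_cast at this
  linear_combination -this

theorem ch3 (n k : ℕ) : ((n : ℚ) + 1) * n.choose k = (n + 1 - k) * (n + 1).choose k := by
  have h1 := ch1 (n + 1) k
  have h2 := ch2 n k
  push_cast at h1
  linear_combination h1 - h2

theorem pascal (n k : ℕ) : (((n + 1).choose (k + 1) : ℕ) : ℚ) = n.choose k + n.choose (k + 1) := by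
  rw [Nat.choose_succ_succ']; push_cast; ring

theorem shift (N : ℕ) (f g h : ℕ → ℚ) (hf : f N = 0) (h0 : h 0 = f 0)
    (hs : ∀ i, h (i + 1) = f (i + 1) + g i) :
    ∑ i ∈ range (N + 1), h i = ∑ i ∈ range N, f i + ∑ i ∈ range N, g i := by
  have : ∑ i ∈ range N, f i = ∑ i ∈ range (N + 1), f i := by rw [sum_range_succ, hf, add_zero]
  rw [this, sum_range_succ', sum_range_succ', h0]
  simp only [hs, sum_add_distrib]
  ring

/-- The odd denominators. -/
def dd (i α : ℕ) : ℤ := 2 * i + 1 - 2 * α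

theorem dd_ne (i α : ℕ) : dd i α ≠ 0 := by unfold dd; omega

theorem dd_ne' (i α : ℕ) : (dd i α : ℚ) ≠ 0 := by exact_mod_cast dd_ne i α

theorem dd_succ (i α : ℕ) : dd (i + 1) (α + 1) = dd i α := by unfold dd; push_cast; ring

/-- Linearisation coefficients. -/
def kk (s i j : ℕ) : ℕ := s.choose i * s.choose j * (i + j).choose s

theorem kk_comm (s i j : ℕ) : kk s i j = kk s j i := by unfold kk; rw [add_comm i j]; ring

/-- The sum `c`. -/
def cS (s N α : ℕ) : ℚ := ∑ j ∈ range N, ∑ i ∈ range N, (kk s i j : ℚ) / (dd i α * dd j α)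

/-- The sum `Z`. -/
def ZS (s N α β : ℕ) : ℚ :=
  ∑ j ∈ range N, ∑ i ∈ range N, ((i + j + 1) * kk s i j : ℚ) / (dd i α * dd j β)

/-- The sum `B`. -/
def BS (s N α : ℕ) : ℚ := ∑ j ∈ range N, ∑ i ∈ range N, (kk s i j : ℚ) / dd i α

/-- The shifted sum `B`. -/
def BP (s N α : ℕ) : ℚ :=
  ∑ j ∈ range N, ∑ i ∈ range N, (s.choose i * s.choose j * (i + j + 1).choose s : ℚ) / dd i α

/-- The sum `W`. -/
def WS (s N α β : ℕ) : ℚ :=
  ∑ j ∈ range N, ∑ i ∈ range (N + 1),
    (((j + 1) * (s + 1).choose i * s.choose j * (i + j).choose s : ℕ) : ℚ) / (dd i α * dd j β)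

/-- The sum `U`. -/
def US (s N α : ℕ) : ℚ :=
  ∑ j ∈ range N, ∑ i ∈ range (N + 1),
    (((s + 1).choose i * (s.choose j * (i + j).choose s) : ℕ) : ℚ) / dd i α

/-- The sum `U'`. -/
def UP (s N α : ℕ) : ℚ :=
  ∑ i ∈ range N, ∑ j ∈ range (N + 1),
    ((s.choose i * (s + 1).choose j * (i + j).choose s : ℕ) : ℚ) / dd i α

theorem ZS_comm (s N α β : ℕ) : ZS s N α β = ZS s N β α := by
  unfold ZS
  rw [sum_comm]
  refine sum_congr rfl fun i _ => sum_congr rfl fun j _ => ?_
  rw [kk_comm]; ring

theorem H_eq (s N α : ℕ) : ZS s N α α - BS s N α = 2 * α * cS s N α := by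
  have h1 : BS s N α = ∑ j ∈ range N, ∑ i ∈ range N, (kk s i j : ℚ) / dd j α := by
    unfold BS
    rw [sum_comm]
    refine sum_congr rfl fun i _ => sum_congr rfl fun j _ => ?_
    rw [kk_comm]
  have h2 : 2 * ZS s N α α - 4 * α * cS s N α = BS s N α + BS s N α := by
    nth_rewrite 1 [h1]
    unfold ZS cS BS
    simp only [mul_sum, ← sum_sub_distrib, ← sum_add_distrib]
    refine sum_congr rfl fun j _ => sum_congr rfl fun i _ => ?_
    have a := dd_ne' i α
    have b := dd_ne' j α
    field_simp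
    unfold dd
    push_cast
    ring
  linear_combination h2 / 2

theorem W_eq {s N : ℕ} (hs : s < N) (α β : ℕ) :
    WS s N (α + 1) β = ZS s N (α + 1) β + ZS s N α β := by
  unfold WS ZS
  rw [← sum_add_distrib]
  refine sum_congr rfl fun j _ => shift N _ _ _ ?_ ?_ fun i => ?_
  · simp [kk, Nat.choose_eq_zero_of_lt hs]
  · simp [kk, mul_assoc]
  · rw [dd_succ, ← add_div]
    congr 1
    have h1 := ch1 s i
    have h3 := ch3 (i + j) s
    simp only [kk]
    rw [show i + 1 + j = i + j + 1 by ring]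
    push_cast at h3 ⊢
    rw [pascal]
    linear_combination (-(s.choose j * (i + j + 1).choose s : ℚ)) * h1
      - (s.choose i * s.choose j : ℚ) * h3

theorem U_eq {s N : ℕ} (hs : s < N) (α : ℕ) :
    US s N (α + 1) = BS s N (α + 1) + BP s N α := by
  unfold US BS BP
  rw [← sum_add_distrib]
  refine sum_congr rfl fun j _ => shift N _ _ _ ?_ ?_ fun i => ?_
  · simp [kk, Nat.choose_eq_zero_of_lt hs]
  · simp [kk]
  · rw [dd_succ, ← add_div]
    congr 1
    simp only [kk]
    rw [show i + 1 + j = i + j + 1 by ring]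
    push_cast
    rw [pascal]
    ring

theorem UP_eq {s N : ℕ} (hs : s < N) (α : ℕ) :
    UP s N α = BS s N α + BP s N α := by
  unfold UP BS BP
  rw [sum_comm (s := range N) (t := range N), sum_comm (s := range N) (t := range N)
    (f := fun j i => (s.choose i * s.choose j * (i + j + 1).choose s : ℚ) / dd i α),
    ← sum_add_distrib]
  refine sum_congr rfl fun i _ => shift N _ _ _ ?_ ?_ fun j => ?_
  · simp [kk, Nat.choose_eq_zero_of_lt hs]
  · simp [kk]
  · rw [← add_div]
    congr 1
    simp only [kk]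
    rw [show i + (j + 1) = i + j + 1 by ring]
    push_cast
    rw [pascal]
    ring

theorem H_step {s N : ℕ} (hs : s < N) (α : ℕ) :
    2 * (α + 1 : ℕ) * cS s N (α + 1) = 2 * α * cS s N α +
      (WS s N (α + 1) (α + 1) - WS s N (α + 1) α - US s N (α + 1) + UP s N α) := by
  rw [← H_eq, ← H_eq, W_eq hs, W_eq hs, U_eq hs, UP_eq hs, ZS_comm s N α (α + 1)]
  ring

section mem
variable {p : ℕ} [hp : Fact p.Prime] {r A : ℕ}

theorem dvA (hA : ∀ m ≤ r, 2 * m + 1 ∣ A) {Q : ℕ} (h1 : Q % 2 = 1) (h2 : Q < 2 * (r + 1)) :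
    dv A Q = 1 := by
  have := hA (Q / 2) (by omega)
  rw [show 2 * (Q / 2) + 1 = Q by omega] at this
  simp only [dv, Int.natCast_dvd_natCast, this, if_true]

theorem mem_direct (hA : ∀ m ≤ r, 2 * m + 1 ∣ A) (s N : ℕ)
    (hc : ∀ e, 1 ≤ e → p ^ e % 2 = 1 → 2 * (r + 1) ≤ p ^ e → s % p ^ e + 1 ≠ p ^ e) :
    (A : ℚ) ^ 2 * (2 * s + 1).choose s * cS s N (r + 1) ∈ (Rat.padicValuation p).integer := by
  unfold cS
  simp only [mul_sum]
  refine Subring.sum_mem _ fun j _ => Subring.sum_mem _ fun i _ => ?_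
  have := mem_of_level (p := p) (((Lo.self hp.out A).mul (Lo.self hp.out A)).mul
    ((Lo.choose hp.out (2 * s + 1) s).mul (((Lo.choose hp.out s i).mul (Lo.choose hp.out s j)).mul
      (Lo.choose hp.out (i + j) s))))
    ((Up.self hp.out (dd_ne i (r + 1))).mul (Up.self hp.out (dd_ne j (r + 1)))) (fun e he => by
      have hQ : 1 < p ^ e := Nat.one_lt_pow (by omega) hp.out.one_lt
      by_cases hodd : p ^ e % 2 = 1
      · rcases lt_or_ge (p ^ e) (2 * (r + 1)) with h | h
        · have := dvA hA hodd h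
          have := dv_le_one (dd i (r + 1)) (p ^ e)
          have := dv_le_one (dd j (r + 1)) (p ^ e)
          omega
        · have := level_direct (i := i) (j := j) hQ (by omega) h (hc e he hodd h)
          unfold dd
          omega
      · have a : dv (dd i (r + 1)) (p ^ e) = 0 := if_neg fun h => hodd (odd_of_dvd h)
        have b : dv (dd j (r + 1)) (p ^ e) = 0 := if_neg fun h => hodd (odd_of_dvd h)
        omega)
  convert this using 1
  simp only [kk]
  push_cast
  ring

theorem dv_big {Q : ℕ} (h1 : Q % 2 = 1) (h2 : 2 * (r + 1) ≤ Q) :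
    dv ((2 * (r + 1) : ℕ) : ℤ) Q = 0 := by
  refine if_neg fun h => ?_
  have := Nat.le_of_dvd (by omega) (Int.natCast_dvd_natCast.1 h)
  omega

theorem mem_chain (hA : ∀ m ≤ r, 2 * m + 1 ∣ A) {s N : ℕ} (hs : s < N)
    (hodd : ∀ e, p ^ e % 2 = 1)
    (hc : ∀ e, 1 ≤ e → p ^ e < 2 * (r + 1) → s % p ^ e + 1 = p ^ e) :
    (A : ℚ) ^ 2 * (2 * s + 1).choose s * cS s N (r + 1) ∈ (Rat.padicValuation p).integer := by
  set M : ℚ := (A : ℚ) ^ 2 * (2 * s + 1).choose s / (2 * (r + 1) : ℕ) with hM
  have hr : ((2 * (r + 1) : ℕ) : ℤ) ≠ 0 := by omega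
  have LA := (Lo.self hp.out A).mul (Lo.self hp.out A)
  have LC := Lo.choose hp.out (2 * s + 1) s
  have hW : ∀ α β, 1 ≤ α → α ≤ r + 1 → β ≤ r + 1 →
      M * WS s N α β ∈ (Rat.padicValuation p).integer := by
    intro α β h1 hα hβ
    unfold WS
    simp only [mul_sum]
    refine Subring.sum_mem _ fun j _ => Subring.sum_mem _ fun i _ => ?_
    have := mem_of_level (p := p) (LA.mul (LC.mul ((((Lo.self hp.out (j + 1)).mul
      (Lo.choose hp.out (s + 1) i)).mul (Lo.choose hp.out s j)).mul (Lo.choose hp.out (i + j) s))))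
      ((Up.self hp.out hr).mul ((Up.self hp.out (dd_ne i α)).mul (Up.self hp.out (dd_ne j β))))
      (fun e he => by
        have hQ : 1 < p ^ e := Nat.one_lt_pow (by omega) hp.out.one_lt
        rcases lt_or_ge (p ^ e) (2 * (r + 1)) with h | h
        · have := dvA hA (hodd e) h
          have := dv_le_one (dd i α) (p ^ e)
          have := dv_le_one (dd j β) (p ^ e)
          have := dv_le_one ((2 * (r + 1) : ℕ) : ℤ) (p ^ e)
          have := level_W' (i := i) (j := j) hQ (hc e he h)
          omega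
        · have := level_W (s := s) (i := i) (j := j) (β := β) hQ h1 (by omega) (by omega)
          have := dv_big (hodd e) h
          unfold dd
          omega)
    convert this using 1
    rw [hM]
    push_cast
    have := dd_ne' i α
    have := dd_ne' j β
    field_simp
  have hU : ∀ α, 1 ≤ α → α ≤ r + 1 → M * US s N α ∈ (Rat.padicValuation p).integer := by
    intro α h1 hα
    unfold US
    simp only [mul_sum]
    refine Subring.sum_mem _ fun j _ => Subring.sum_mem _ fun i _ => ?_
    have := mem_of_level (p := p) (LA.mul (LC.mul ((Lo.choose hp.out (s + 1) i).mul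
      ((Lo.choose hp.out s j).mul (Lo.choose hp.out (i + j) s)))))
      ((Up.self hp.out hr).mul (Up.self hp.out (dd_ne i α)))
      (fun e he => by
        have hQ : 1 < p ^ e := Nat.one_lt_pow (by omega) hp.out.one_lt
        rcases lt_or_ge (p ^ e) (2 * (r + 1)) with h | h
        · have := dvA hA (hodd e) h
          have := dv_le_one (dd i α) (p ^ e)
          have := dv_le_one ((2 * (r + 1) : ℕ) : ℤ) (p ^ e)
          omega
        · have := level_U (s := s) (i := i) hQ h1 (by omega)
          have := dv_big (hodd e) h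
          unfold dd
          omega)
    convert this using 1
    rw [hM]
    push_cast
    have := dd_ne' i α
    field_simp
  have hP : ∀ α, α ≤ r → M * UP s N α ∈ (Rat.padicValuation p).integer := by
    intro α hα
    unfold UP
    simp only [mul_sum]
    refine Subring.sum_mem _ fun i _ => Subring.sum_mem _ fun j _ => ?_
    have := mem_of_level (p := p) (LA.mul (LC.mul (((Lo.choose hp.out s i).mul
      (Lo.choose hp.out (s + 1) j)).mul (Lo.choose hp.out (i + j) s))))
      ((Up.self hp.out hr).mul (Up.self hp.out (dd_ne i α)))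
      (fun e he => by
        have hQ : 1 < p ^ e := Nat.one_lt_pow (by omega) hp.out.one_lt
        rcases lt_or_ge (p ^ e) (2 * (r + 1)) with h | h
        · have := dvA hA (hodd e) h
          have := dv_le_one (dd i α) (p ^ e)
          have := dv_le_one ((2 * (r + 1) : ℕ) : ℤ) (p ^ e)
          omega
        · have := level_U' (s := s) (i := i) (j := j) (α := α) hQ (by omega)
          have := dv_big (hodd e) h
          unfold dd
          omega)
    convert this using 1
    rw [hM]
    push_cast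
    have := dd_ne' i α
    field_simp
  have key : ∀ α, α ≤ r + 1 → M * (2 * α * cS s N α) ∈ (Rat.padicValuation p).integer := by
    intro α
    induction α with
    | zero => intro _; simp
    | succ α ih =>
      intro hα
      rw [H_step hs, mul_add, mul_add, mul_sub, mul_sub]
      exact add_mem (ih (by omega)) (add_mem (sub_mem (sub_mem (hW _ _ (by omega) hα hα)
        (hW _ _ (by omega) hα (by omega))) (hU _ (by omega) hα)) (hP _ (by omega)))
  convert key (r + 1) le_rfl using 1
  rw [hM]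
  push_cast
  field_simp

theorem mem_all (hA : ∀ m ≤ r, 2 * m + 1 ∣ A) {s N : ℕ} (hs : s < N) :
    (A : ℚ) ^ 2 * (2 * s + 1).choose s * cS s N (r + 1) ∈ (Rat.padicValuation p).integer := by
  by_cases hc : ∀ e, 1 ≤ e → p ^ e % 2 = 1 → 2 * (r + 1) ≤ p ^ e → s % p ^ e + 1 ≠ p ^ e
  · exact mem_direct hA s N hc
  · push Not at hc
    obtain ⟨e, he, hodd, hbig, hdvd⟩ := hc
    have hp1 := hp.out.one_lt
    have hpodd : Odd p := (Nat.odd_pow_iff (by omega)).1 (Nat.odd_iff.2 hodd)
    refine mem_chain hA hs (fun f => Nat.odd_iff.1 hpodd.pow) fun f hf hlt => ?_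
    have hfe : f ≤ e := ((Nat.pow_lt_pow_iff_right hp1).1 (lt_of_lt_of_le hlt hbig)).le
    rw [← dvd_succ_iff (Nat.one_lt_pow (by omega) hp1)] at hdvd ⊢
    exact (Int.natCast_dvd_natCast.2 (pow_dvd_pow p hfe)).trans hdvd

end mem

theorem int_c {r A : ℕ} (hA : ∀ m ≤ r, 2 * m + 1 ∣ A) {s N : ℕ} (hs : s < N) :
    ∃ z : ℤ, (A : ℚ) ^ 2 * (2 * s + 1).choose s * cS s N (r + 1) = z := by
  set x := (A : ℚ) ^ 2 * (2 * s + 1).choose s * cS s N (r + 1) with hx
  have : x.den = 1 := by
    rw [Nat.eq_one_iff_not_exists_prime_dvd]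
    intro p hp
    have := Fact.mk hp
    have h := mem_all (p := p) hA hs
    rwa [Valuation.mem_integer_iff, Rat.padicValuation_le_one_iff] at h
  exact ⟨x.num, ((Rat.den_eq_one_iff x).1 this).symm⟩

end Pool.Agent.Lib.MP_6f4751_nt
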