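import Pool.Agent.Lib.MP_6f4751_nt.Sum

/-! The exact loss at each level. -/

set_option autoImplicit false

namespace Pool.Agent.Lib.MP_6f4751_nt

open Finset

/-- Largest possible loss at level `Q`. -/
def bw (r s Q : ℕ) : ℕ :=
  if s % Q + 1 = Q then (if r % Q + 1 = Q then 2 else 1) else if Q ≤ 2 * (r % Q) + 1 then 2 else 0

/-- Contribution of the level `e` when the first `g` levels divide `s + 1`. -/
def lv (p r g e : ℕ) : ℕ :=
  if e ≤ g then (if p ^ e ∣ r + 1 then 2 else 1) else if p ^ e ≤ 2 * (r % p ^ e) + 1 then 2 else 0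

/-- Total loss for a given `g`. -/
def vl (p r g : ℕ) : ℕ := ∑ e ∈ Icc 1 (Nat.log p (2 * r + 1)), lv p r g e

/-- The exact exponent. -/
def ex (p r : ℕ) : ℕ := (range (Nat.log p (2 * r + 1) + 1)).sup (vl p r)

theorem dd_mod (Q i r : ℕ) :
    (Q : ℤ) ∣ dd i (r + 1) ↔ (Q : ℤ) ∣ 2 * (i % Q : ℕ) - 2 * (r % Q : ℕ) - 1 := by
  have e1 : (i : ℤ) = Q * (i / Q : ℕ) + (i % Q : ℕ) := by exact_mod_cast (Nat.div_add_mod i Q).symm
  have e2 : (r : ℤ) = Q * (r / Q : ℕ) + (r % Q : ℕ) := by exact_mod_cast (Nat.div_add_mod r Q).symm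
  have : dd i (r + 1) = (2 * (i % Q : ℕ) - 2 * (r % Q : ℕ) - 1) +
      Q * (2 * (i / Q : ℕ) - 2 * (r / Q : ℕ)) := by
    unfold dd
    rw [Nat.cast_add, Nat.cast_one]
    linear_combination 2 * e1 - 2 * e2
  rw [this, dvd_add_left (dvd_mul_right _ _)]

theorem res_dd {Q i r : ℕ} (hQ : 0 < Q) : (Q : ℤ) ∣ dd i (r + 1) ↔
    (2 * (i % Q) + Q = 2 * (r % Q) + 1 ∨ 2 * (i % Q) = 2 * (r % Q) + 1 + Q) := by
  rw [dd_mod]
  have h2 := Nat.mod_lt i hQ
  have h3 := Nat.mod_lt r hQ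
  constructor
  · rintro ⟨c, hc⟩
    have c1 : -2 < c := by
      by_contra hcon
      have : (Q : ℤ) * c ≤ Q * (-2) := mul_le_mul_of_nonneg_left (by omega) (by positivity)
      omega
    have c2 : c < 2 := by
      by_contra hcon
      have : (Q : ℤ) * 2 ≤ Q * c := mul_le_mul_of_nonneg_left (by omega) (by positivity)
      omega
    interval_cases c <;> omega
  · rintro (h | h)
    · exact ⟨-1, by omega⟩
    · exact ⟨1, by omega⟩

theorem level_bw {Q : ℕ} (hQ : 1 < Q) (r s i j : ℕ) :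
    dv (dd i (r + 1)) Q + dv (dd j (r + 1)) Q ≤
      bw r s Q + (cy (2 * s + 1) s Q + (cy s i Q + cy s j Q + cy (i + j) s Q)) := by
  have R := residues hQ s i j
  have hr := Nat.mod_lt r (show 0 < Q by omega)
  unfold dv cy bw
  simp only [res_dd (show 0 < Q by omega)]
  generalize (s + 1) % Q = a at *
  generalize (2 * s + 1) % Q = b at *
  generalize (i + j) % Q = c at *
  generalize s % Q = d at *
  generalize i % Q = e at *
  generalize j % Q = f at *
  generalize r % Q = ρ at *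
  split_ifs <;> omega

theorem dvd_succ_nat {Q s : ℕ} (hQ : 1 < Q) : Q ∣ s + 1 ↔ s % Q + 1 = Q := by
  rw [← dvd_succ_iff hQ, Int.natCast_dvd_natCast]

variable {p : ℕ}

theorem big_level (hp : p.Prime) {r e : ℕ} (he : Nat.log p (2 * r + 1) < e) : 2 * r + 1 < p ^ e :=
  Nat.lt_pow_of_log_lt hp.one_lt he

theorem small_level {r e : ℕ} (he : e ≤ Nat.log p (2 * r + 1)) :
    p ^ e ≤ 2 * r + 1 := Nat.pow_le_of_le_log (by omega) he

theorem not_b2 (hp : p.Prime) {r e : ℕ} (he : Nat.log p (2 * r + 1) < e) :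
    ¬ p ^ e ≤ 2 * (r % p ^ e) + 1 := by
  have := big_level hp he
  have := Nat.mod_le r (p ^ e)
  omega

theorem sum_level {E b : ℕ} (hb : E + 1 ≤ b) {w v : ℕ → ℕ} (h1 : ∀ e, 1 ≤ e → e ≤ E → w e = v e)
    (h2 : ∀ e, E < e → w e = 0) : ∑ e ∈ Ico 1 b, w e = ∑ e ∈ Icc 1 E, v e := by
  rw [← sum_subset (s₁ := Icc 1 E)]
  · exact sum_congr rfl fun e he => h1 e (mem_Icc.1 he).1 (mem_Icc.1 he).2
  · intro e he
    rw [mem_Icc] at he
    rw [mem_Ico]
    omega
  · intro e he he'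
    rw [mem_Icc] at he'
    rw [mem_Ico] at he
    exact h2 e (by omega)

theorem sum_bw (hp : p.Prime) {r s g b : ℕ} (hb : Nat.log p (2 * r + 1) + 1 ≤ b)
    (hgE : g ≤ Nat.log p (2 * r + 1)) (hg : ∀ e, 1 ≤ e → (p ^ e ∣ s + 1 ↔ e ≤ g)) :
    ∑ e ∈ Ico 1 b, bw r s (p ^ e) = vl p r g := by
  refine sum_level hb (fun e he _ => ?_) fun e he => ?_
  · have hQ : 1 < p ^ e := Nat.one_lt_pow (by omega) hp.one_lt
    unfold bw lv
    simp only [← dvd_succ_nat hQ, hg e he]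
  · have hQ : 1 < p ^ e := Nat.one_lt_pow (by omega) hp.one_lt
    unfold bw
    rw [if_neg, if_neg (not_b2 hp he)]
    rw [← dvd_succ_nat hQ, hg e (by omega)]
    omega

theorem vl_le_ex {r g : ℕ} (hg : g ≤ Nat.log p (2 * r + 1)) : vl p r g ≤ ex p r :=
  le_sup (f := vl p r) (mem_range.2 (by omega))

theorem vl_succ {r g : ℕ} (hg : g + 1 ≤ Nat.log p (2 * r + 1)) :
    vl p r (g + 1) + lv p r g (g + 1) = vl p r g + lv p r (g + 1) (g + 1) := by
  have hm : g + 1 ∈ Icc 1 (Nat.log p (2 * r + 1)) := mem_Icc.2 ⟨by omega, hg⟩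
  unfold vl
  rw [← add_sum_erase _ _ hm, ← add_sum_erase _ (lv p r g) hm]
  have : ∑ e ∈ (Icc 1 (Nat.log p (2 * r + 1))).erase (g + 1), lv p r (g + 1) e =
      ∑ e ∈ (Icc 1 (Nat.log p (2 * r + 1))).erase (g + 1), lv p r g e := by
    refine sum_congr rfl fun e he => ?_
    have := ne_of_mem_erase he
    unfold lv
    simp only [show e ≤ g + 1 ↔ e ≤ g by omega]
  omega

theorem b2_of_dvd (hp : p.Prime) {r e : ℕ} (he : 1 ≤ e) (h : p ^ e ∣ r + 1) :
    p ^ e ≤ 2 * (r % p ^ e) + 1 := by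
  have hQ : 1 < p ^ e := Nat.one_lt_pow (by omega) hp.one_lt
  rw [dvd_succ_nat hQ] at h
  omega

/-- The largest maximiser of `vl`. -/
theorem exists_max (p r : ℕ) : ∃ g, g ≤ Nat.log p (2 * r + 1) ∧ vl p r g = ex p r ∧
    (g < Nat.log p (2 * r + 1) →
      ¬ p ^ (g + 1) ∣ r + 1 ∧ p ^ (g + 1) ≤ 2 * (r % p ^ (g + 1)) + 1) ∧
    (p ^ g ∣ r + 1 ∨ ¬ p ^ g ≤ 2 * (r % p ^ g) + 1) := by
  classical
  set E := Nat.log p (2 * r + 1) with hE
  have hex : ∃ g, g ≤ E ∧ vl p r g = ex p r := by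
    obtain ⟨g, hg, h⟩ := exists_mem_eq_sup (range (E + 1)) (by simp) (vl p r)
    exact ⟨g, by simpa [Nat.lt_succ_iff] using hg, h.symm⟩
  obtain ⟨g0, hg0, h0⟩ := hex
  set g := Nat.findGreatest (fun g => vl p r g = ex p r) E with hg
  have h1 : vl p r g = ex p r := Nat.findGreatest_spec (P := fun g => vl p r g = ex p r) hg0 h0
  have h2 : g ≤ E := Nat.findGreatest_le E
  refine ⟨g, h2, h1, fun hlt => ?_, ?_⟩
  · have h3 : vl p r (g + 1) ≠ ex p r :=
      Nat.findGreatest_is_greatest (P := fun g => vl p r g = ex p r) (Nat.lt_succ_self g) hlt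
    have h4 := vl_le_ex (p := p) (r := r) (g := g + 1) hlt
    have h5 := vl_succ (p := p) (r := r) (g := g) hlt
    unfold lv at h5
    rw [if_neg (by omega), if_pos le_rfl] at h5
    split_ifs at h5 with a b b
    · omega
    · exact ⟨b, a⟩
    · omega
    · omega
  · rcases Nat.eq_zero_or_pos g with h | h
    · left
      rw [h, pow_zero]
      exact one_dvd _
    · obtain ⟨k, hk⟩ : ∃ k, g = k + 1 := ⟨g - 1, by omega⟩
      rw [hk] at h1 h2 ⊢
      have h4 := vl_le_ex (p := p) (r := r) (g := k) (by omega)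
      have h5 := vl_succ (p := p) (r := r) (g := k) h2
      unfold lv at h5
      rw [if_neg (by omega), if_pos le_rfl] at h5
      split_ifs at h5 with a b b
      · exact Or.inl b
      · omega
      · exact Or.inr a
      · exact Or.inr a

theorem choose_fact (hp : p.Prime) {n k b : ℕ} (h : k ≤ n) (hb : n ≤ b) :
    (n.choose k).factorization p = ∑ e ∈ Ico 1 (b + 1), cy n k (p ^ e) := by
  rw [Nat.factorization_choose hp h (b := b + 1)
    (Nat.lt_succ_of_le ((Nat.log_le_self p n).trans hb)), card_filter]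
  refine sum_congr rfl fun e _ => ?_
  have := mod_cases k (n - k) (pow_pos hp.pos e)
  rw [Nat.add_sub_cancel' h] at this
  unfold cy
  generalize (n - k) % p ^ e = a at *
  generalize n % p ^ e = c at *
  generalize k % p ^ e = d at *
  split_ifs <;> omega

theorem not_mem_of_dvd [hp : Fact p.Prime] {n d : ℤ} {k : ℕ} (hd : d ≠ 0) (h1 : (p : ℤ) ^ k ∣ d)
    (h2 : ¬ (p : ℤ) ^ k ∣ n) : (n : ℚ) / (d : ℚ) ∉ (Rat.padicValuation p).integer := by
  intro h
  rw [Valuation.mem_integer_iff, Rat.padicValuation_le_one_iff] at h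
  set x : ℚ := (n : ℚ) / (d : ℚ) with hx
  have hd' : (d : ℚ) ≠ 0 := by exact_mod_cast hd
  have e : n * (x.den : ℤ) = x.num * d := by
    have h3 : x * x.den = x.num := Rat.mul_den_eq_num x
    have h4 : (n : ℚ) = x * d := by rw [hx]; field_simp
    have : (n : ℚ) * (x.den : ℚ) = x.num * d := by rw [← h3, h4]; ring
    exact_mod_cast this
  apply h2
  have hc : IsCoprime ((p : ℤ) ^ k) (x.den : ℤ) :=
    (Nat.isCoprime_iff_coprime.2 ((Nat.Prime.coprime_iff_not_dvd hp.out).2 h)).pow_left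
  exact hc.dvd_of_dvd_mul_right (e ▸ h1.mul_left _)

end Pool.Agent.Lib.MP_6f4751_nt
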