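import Pool.Agent.Lib.MP_6f4751_nt.Exact1

/-! Witnesses: the loss `ex p r` is attained. -/

set_option autoImplicit false

namespace Pool.Agent.Lib.MP_6f4751_nt

open Finset

/-- One term of the double sum. -/
def tm (r s i j : ℕ) : ℚ :=
  ((2 * s + 1).choose s : ℚ) * ((kk s i j : ℚ) / (dd i (r + 1) * dd j (r + 1)))

/-- The coefficient `u`. -/
def uu (r s : ℕ) : ℚ := ((2 * s + 1).choose s : ℚ) * cS s (s + 1) (r + 1)

theorem uu_eq (r s : ℕ) :
    uu r s = ∑ x ∈ range (s + 1) ×ˢ range (s + 1), tm r s x.1 x.2 := by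
  unfold uu cS tm
  rw [sum_product_right]
  simp only [mul_sum]

variable {p : ℕ} [hp : Fact p.Prime]

theorem tm_mem {r s i j A : ℕ} {w : ℕ → ℕ} (hA : Lo p A w)
    (h : ∀ e, 1 ≤ e → dv (dd i (r + 1)) (p ^ e) + dv (dd j (r + 1)) (p ^ e) ≤ w (p ^ e) +
      (cy (2 * s + 1) s (p ^ e) + (cy s i (p ^ e) + cy s j (p ^ e) + cy (i + j) s (p ^ e)))) :
    (A : ℚ) * tm r s i j ∈ (Rat.padicValuation p).integer := by
  have := mem_of_level (p := p) (hA.mul
    ((Lo.choose hp.out (2 * s + 1) s).mul (((Lo.choose hp.out s i).mul (Lo.choose hp.out s j)).mul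
      (Lo.choose hp.out (i + j) s))))
    ((Up.self hp.out (dd_ne i (r + 1))).mul (Up.self hp.out (dd_ne j (r + 1)))) h
  convert this using 1
  simp only [kk, tm]
  push_cast
  ring

/-- The budget lowered by one at the level `f`. -/
theorem lo_minus {r s g f c : ℕ} (hgE : g ≤ Nat.log p (2 * r + 1))
    (hg : ∀ e, 1 ≤ e → (p ^ e ∣ s + 1 ↔ e ≤ g)) (hf1 : 1 ≤ f) (hf : 1 ≤ bw r s (p ^ f))
    (hc : vl p r g ≤ c + 1) :
    Lo p (p ^ c) fun Q => bw r s Q - if Q = p ^ f then 1 else 0 := by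
  refine Or.inr ⟨max (Nat.log p (2 * r + 1) + 1) (f + 1), fun b hb => ?_⟩
  have h1 := sum_bw hp.out (le_of_max_le_left hb) hgE hg
  have hm : f ∈ Ico 1 b := mem_Ico.2 ⟨hf1, le_of_max_le_right hb⟩
  rw [← add_sum_erase _ _ hm] at h1 ⊢
  have : ∑ e ∈ (Ico 1 b).erase f, (bw r s (p ^ e) - if p ^ e = p ^ f then 1 else 0) ≤
      ∑ e ∈ (Ico 1 b).erase f, bw r s (p ^ e) := sum_le_sum fun e _ => Nat.sub_le _ _
  rw [hp.out.factorization_pow, Finsupp.single_eq_same]
  simp only [if_true]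
  omega

theorem rest_mem {r s g f c : ℕ} (hgE : g ≤ Nat.log p (2 * r + 1))
    (hg : ∀ e, 1 ≤ e → (p ^ e ∣ s + 1 ↔ e ≤ g)) (hf1 : 1 ≤ f) (hf : 1 ≤ bw r s (p ^ f))
    (hc : vl p r g ≤ c + 1) {D : Finset (ℕ × ℕ)} (hD : D ⊆ range (s + 1) ×ˢ range (s + 1))
    (h : ∀ i j, i ≤ s → j ≤ s → (i, j) ∉ D →
      dv (dd i (r + 1)) (p ^ f) + dv (dd j (r + 1)) (p ^ f) + 1 ≤ bw r s (p ^ f) +
      (cy (2 * s + 1) s (p ^ f) + (cy s i (p ^ f) + cy s j (p ^ f) + cy (i + j) s (p ^ f))))
    (hT : ((p ^ c : ℕ) : ℚ) * ∑ x ∈ D, tm r s x.1 x.2 ∉ (Rat.padicValuation p).integer) :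
    ((p ^ c : ℕ) : ℚ) * uu r s ∉ (Rat.padicValuation p).integer := by
  intro hu
  apply hT
  rw [uu_eq, ← sum_sdiff hD, mul_add] at hu
  have : ((p ^ c : ℕ) : ℚ) * ∑ x ∈ (range (s + 1) ×ˢ range (s + 1)) \ D, tm r s x.1 x.2 ∈
      (Rat.padicValuation p).integer := by
    rw [mul_sum]
    refine Subring.sum_mem _ fun x hx => tm_mem (lo_minus hgE hg hf1 hf hc) fun e he => ?_
    rw [mem_sdiff, mem_product, mem_range, mem_range] at hx
    by_cases hef : p ^ e = p ^ f
    · have := h x.1 x.2 (by omega) (by omega) hx.2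
      rw [hef, if_pos rfl]
      omega
    · rw [if_neg hef]
      exact level_bw (Nat.one_lt_pow (by omega) hp.out.one_lt) r s x.1 x.2
  simpa using sub_mem hu this

theorem tm_not_mem {r s i g c : ℕ} (hgE : g ≤ Nat.log p (2 * r + 1))
    (hg : ∀ e, 1 ≤ e → (p ^ e ∣ s + 1 ↔ e ≤ g)) (hc : c < vl p r g) (h1 : i ≤ s) (h2 : s ≤ i + i)
    (h : ∀ e, 1 ≤ e → bw r s (p ^ e) +
      (cy (2 * s + 1) s (p ^ e) + (cy s i (p ^ e) + cy s i (p ^ e) + cy (i + i) s (p ^ e))) ≤
      dv (dd i (r + 1)) (p ^ e) + dv (dd i (r + 1)) (p ^ e)) :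
    ((p ^ c : ℕ) : ℚ) * tm r s i i ∉ (Rat.padicValuation p).integer := by
  set d := (dd i (r + 1)).natAbs with hd
  have hd0 : d ≠ 0 := Int.natAbs_ne_zero.2 (dd_ne _ _)
  set b := 2 * s + 1 + d + Nat.log p (2 * r + 1) with hb
  have c1 := choose_fact hp.out (n := 2 * s + 1) (k := s) (b := b) (by omega) (by omega)
  have c2 := choose_fact hp.out (n := s) (k := i) (b := b) h1 (by omega)
  have c3 := choose_fact hp.out (n := i + i) (k := s) (b := b) h2 (by omega)
  have c4 := fact_eq hp.out hd0 (b + 1) (by omega)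
  have c5 := sum_bw hp.out (b := b + 1) (by omega) hgE hg
  have c6 := sum_le_sum (s := Ico 1 (b + 1)) fun e he => h e (mem_Ico.1 he).1
  have c7 : ∀ Q, dv (d : ℤ) Q = dv (dd i (r + 1)) Q := fun Q => by
    simp only [dv, hd, Int.natCast_natAbs, dvd_abs]
  simp only [c7] at c4
  simp only [sum_add_distrib] at c6
  have n1 : (2 * s + 1).choose s ≠ 0 := (Nat.choose_pos (by omega)).ne'
  have n2 : s.choose i ≠ 0 := (Nat.choose_pos h1).ne'
  have n3 : (i + i).choose s ≠ 0 := (Nat.choose_pos h2).ne'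
  have n0 : p ^ c ≠ 0 := (pow_pos hp.out.pos c).ne'
  set n := p ^ c * ((2 * s + 1).choose s * (s.choose i * s.choose i * (i + i).choose s)) with hn
  have hn0 : n ≠ 0 := by positivity
  have hv : n.factorization p < (d * d).factorization p := by
    rw [hn, Nat.factorization_mul n0 (by positivity), Nat.factorization_mul n1 (by positivity),
      Nat.factorization_mul (by positivity) n3, Nat.factorization_mul n2 n2,
      Nat.factorization_mul hd0 hd0, hp.out.factorization_pow]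
    simp only [Finsupp.add_apply, Finsupp.single_eq_same]
    omega
  have := not_mem_of_dvd (p := p) (n := n) (d := ((d * d : ℕ) : ℤ)) (k := (d * d).factorization p)
    (by positivity) (by exact_mod_cast Nat.ordProj_dvd _ _) (fun hcon => by
      have h3 : p ^ (d * d).factorization p ∣ n := by exact_mod_cast hcon
      have := (hp.out.pow_dvd_iff_le_factorization hn0).1 h3
      omega)
  convert this using 2
  have : ((d * d : ℕ) : ℤ) = dd i (r + 1) * dd i (r + 1) := by
    rw [hd]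
    exact Int.natAbs_mul_self
  rw [this, hn]
  simp only [tm, kk]
  push_cast
  ring

theorem mod_split {G H A c : ℕ} (hc : c < G) : (G * A + c) % (G * H) = G * (A % H) + c := by
  rw [Nat.mod_mul, Nat.mul_add_mod, Nat.mod_eq_of_lt hc, Nat.mul_add_div (by omega),
    Nat.div_eq_of_lt hc, add_zero, add_comm]

theorem mid_level {G H a b ρ : ℕ} (hH : H % 2 = 1) (h1 : G ≤ 2 * b + 1)
    (h2 : 2 * (G * a + b) + G * H = 2 * ρ + 1) (h3 : ρ + 1 < G * H) :
    2 * (G * a + (G - 1)) + 1 < G * H := by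
  have hG : 0 < G := Nat.pos_of_ne_zero (by rintro rfl; omega)
  have h4 : G * (2 * a + 1) < G * H := by
    have : G * (2 * a + 1) = 2 * (G * a) + G := by ring
    omega
  have h5 : 2 * a + 1 < H := lt_of_mul_lt_mul_left h4 hG.le
  have h6 : G * (2 * a + 2) ≤ G * H := Nat.mul_le_mul_left G (by omega)
  have : G * (2 * a + 2) = 2 * (G * a) + 2 * G := by ring
  omega

theorem level_eq {Q : ℕ} (hQ : 1 < Q) {r s i : ℕ} (hd : (Q : ℤ) ∣ dd i (r + 1))
    (h : s % Q + 1 = Q ∨ (s % Q + 1 ≠ Q ∧ i % Q ≤ s % Q ∧ (2 * (r % Q) + 1 < Q ∨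
      (2 * (s % Q) + 1 < Q ∧ s % Q ≤ i % Q + i % Q)))) :
    bw r s Q + (cy (2 * s + 1) s Q + (cy s i Q + cy s i Q + cy (i + i) s Q)) ≤
      dv (dd i (r + 1)) Q + dv (dd i (r + 1)) Q := by
  have R := residues hQ s i i
  have hr := Nat.mod_lt r (show 0 < Q by omega)
  have e4 := (res_dd (by omega)).1 hd
  unfold dv
  rw [if_pos hd]
  unfold bw cy
  generalize (s + 1) % Q = a at *
  generalize (2 * s + 1) % Q = b at *
  generalize (i + i) % Q = c at *
  generalize s % Q = d at *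
  generalize i % Q = e at *
  generalize r % Q = ρ at *
  split_ifs <;> omega

theorem level_zero {Q r s i : ℕ} (h1 : 2 * s + 1 < Q) (h2 : i ≤ s) (h3 : s ≤ i + i)
    (h4 : ¬ Q ≤ 2 * (r % Q) + 1) :
    bw r s Q + (cy (2 * s + 1) s Q + (cy s i Q + cy s i Q + cy (i + i) s Q)) = 0 := by
  unfold bw cy
  rw [Nat.mod_eq_of_lt h1, Nat.mod_eq_of_lt (show s < Q by omega),
    Nat.mod_eq_of_lt (show i < Q by omega), Nat.mod_eq_of_lt (show i + i < Q by omega)]
  split_ifs <;> omega

/-- The case of a single dominant term. -/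
theorem witness_one (hodd : p % 2 = 1) {r g f c : ℕ} (hgf : g ≤ f) (hf1 : 1 ≤ f)
    (hfE : f ≤ Nat.log p (2 * r + 1)) (hb : p ^ f ≤ 2 * (r % p ^ f) + 1)
    (hmax : ∀ e, f < e → ¬ p ^ e ≤ 2 * (r % p ^ e) + 1)
    (h3 : g < f → ¬ p ^ (g + 1) ∣ r + 1 ∧ p ^ (g + 1) ≤ 2 * (r % p ^ (g + 1)) + 1)
    (h2 : p ^ g ∣ r + 1 ∨ ¬ p ^ g ≤ 2 * (r % p ^ g) + 1) (hc : vl p r g = c + 1) :
    ∃ s, ((p ^ c : ℕ) : ℚ) * uu r s ∉ (Rat.padicValuation p).integer := by
  have hp1 := hp.out.one_lt
  have hpo : ∀ e, p ^ e % 2 = 1 := fun e => Nat.odd_iff.1 (Nat.odd_iff.2 hodd).pow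
  have hpos : ∀ e, 0 < p ^ e := fun e => pow_pos (by omega) e
  have hQ : ∀ e, 1 ≤ e → 1 < p ^ e := fun e he => Nat.one_lt_pow (by omega) hp1
  obtain ⟨i, hi⟩ : ∃ i, 2 * i + p ^ f = 2 * (r % p ^ f) + 1 :=
    ⟨r % p ^ f - p ^ f / 2, by have := hpo f; omega⟩
  have hrf := Nat.mod_lt r (hpos f)
  have hif : i % p ^ f = i := Nat.mod_eq_of_lt (by omega)
  have hdvd : ∀ e, e ≤ f → ((p ^ e : ℕ) : ℤ) ∣ dd i (r + 1) := fun e he =>
    (Int.natCast_dvd_natCast.2 (pow_dvd_pow p he)).trans ((res_dd (hpos f)).2 (Or.inl (by omega)))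
  have hbG : p ^ g ≤ 2 * (i % p ^ g) + 1 := by
    rcases Nat.eq_zero_or_pos g with h | h
    · rw [h, pow_zero]; omega
    · have := (res_dd (hpos g)).1 (hdvd g hgf)
      rw [dvd_succ_nat (hQ g h)] at h2
      omega
  have hbl := Nat.mod_lt i (hpos g)
  have hi' : p ^ g * (i / p ^ g) + i % p ^ g = i := Nat.div_add_mod i _
  set s := p ^ g * (i / p ^ g) + (p ^ g - 1) with hs
  have hs1 : p ^ g ∣ s + 1 := ⟨i / p ^ g + 1, by have := hpos g; rw [mul_add, mul_one]; omega⟩
  have hsplit : ∀ e, g ≤ e → i % p ^ e = p ^ g * (i / p ^ g % p ^ (e - g)) + i % p ^ g ∧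
      s % p ^ e = p ^ g * (i / p ^ g % p ^ (e - g)) + (p ^ g - 1) := fun e he => by
    have : p ^ e = p ^ g * p ^ (e - g) := by rw [← pow_add]; congr 1; omega
    rw [this]
    refine ⟨?_, mod_split (by have := hpos g; omega)⟩
    conv_lhs => rw [← hi']
    exact mod_split hbl
  have hsf : s < p ^ f := by
    have e1 : p ^ f = p ^ g * p ^ (f - g) := by rw [← pow_add]; congr 1; omega
    have e2 : i / p ^ g < p ^ (f - g) := by
      rw [Nat.div_lt_iff_lt_mul (hpos g), mul_comm, ← e1]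
      omega
    have e3 : p ^ g * (i / p ^ g + 1) ≤ p ^ g * p ^ (f - g) := Nat.mul_le_mul_left _ e2
    rw [mul_add, mul_one] at e3
    have := hpos g
    omega
  have hmid : ∀ e, g < e → e ≤ f → p ^ e ≤ 2 * (r % p ^ e) + 1 →
      2 * (s % p ^ e) + 1 < p ^ e := fun e he hef hb2 => by
    obtain ⟨e1, e2⟩ := hsplit e he.le
    have e3 : p ^ e = p ^ g * p ^ (e - g) := by rw [← pow_add]; congr 1; omega
    have e4 := (res_dd (hpos e)).1 (hdvd e hef)
    have e5 : ¬ p ^ e ∣ r + 1 := fun h => (h3 (by omega)).1 ((pow_dvd_pow p he).trans h)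
    rw [dvd_succ_nat (hQ e (by omega))] at e5
    have e6 := Nat.mod_lt r (hpos e)
    have e7 := Nat.mod_lt i (hpos e)
    have := mid_level (G := p ^ g) (H := p ^ (e - g)) (a := i / p ^ g % p ^ (e - g))
      (b := i % p ^ g) (ρ := r % p ^ e) (hpo _) hbG (by omega) (by omega)
    omega
  have hg : ∀ e, 1 ≤ e → (p ^ e ∣ s + 1 ↔ e ≤ g) := fun e he => by
    refine ⟨fun h => ?_, fun h => (pow_dvd_pow p h).trans hs1⟩
    by_contra hcon
    have e1 : p ^ (g + 1) ∣ s + 1 := (pow_dvd_pow p (by omega)).trans h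
    rcases hgf.eq_or_lt with e2 | e2
    · have := Nat.le_of_dvd (by omega) e1
      have : p ^ f < p ^ (g + 1) := Nat.pow_lt_pow_right hp1 (by omega)
      omega
    · have := hmid (g + 1) (by omega) e2 (h3 e2).2
      rw [dvd_succ_nat (hQ _ (by omega))] at e1
      omega
  have his : i ≤ s := by omega
  have hsi : s ≤ i + i := by omega
  have hbf : bw r s (p ^ f) = 2 := by
    unfold bw
    simp only [← dvd_succ_nat (hQ f hf1), hg f hf1]
    by_cases e1 : f ≤ g
    · obtain rfl : g = f := by omega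
      rw [if_pos le_rfl, if_pos (h2.resolve_right (not_not.2 hb))]
    · rw [if_neg e1, if_pos hb]
  refine ⟨s, rest_mem (g := g) (f := f) (D := {(i, i)}) (by omega) hg hf1 (by omega) hc.le
    (by simp; omega) (fun i' j' hi1 hj1 hne => ?_) ?_⟩
  · have e1 : i' % p ^ f = i' := Nat.mod_eq_of_lt (by omega)
    have e2 : j' % p ^ f = j' := Nat.mod_eq_of_lt (by omega)
    simp only [mem_singleton, Prod.mk.injEq] at hne
    rw [hbf]
    unfold dv
    simp only [res_dd (hpos f), e1, e2]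
    split_ifs <;> omega
  · rw [sum_singleton]
    dsimp only
    refine tm_not_mem (g := g) (by omega) hg (by omega) his hsi fun e he => ?_
    have e0 := hg e he
    rw [dvd_succ_nat (hQ e he)] at e0
    by_cases hef : e ≤ f
    · refine level_eq (hQ e he) (hdvd e hef) ?_
      by_cases heg : e ≤ g
      · exact Or.inl (e0.2 heg)
      · obtain ⟨e1, e2⟩ := hsplit e (by omega)
        refine Or.inr ⟨fun h => heg (e0.1 h), by omega, ?_⟩
        by_cases hb2 : p ^ e ≤ 2 * (r % p ^ e) + 1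
        · exact Or.inr ⟨hmid e (by omega) hef hb2, by omega⟩
        · exact Or.inl (by omega)
    · have e1 : p ^ f * 2 ≤ p ^ e := by
        calc p ^ f * 2 ≤ p ^ f * p := Nat.mul_le_mul_left _ hp1
          _ = p ^ (f + 1) := (pow_succ _ _).symm
          _ ≤ p ^ e := Nat.pow_le_pow_right (by omega) (by omega)
      rw [level_zero (by omega) his hsi (hmax e (by omega))]
      exact Nat.zero_le _

theorem choose_unit {n k : ℕ} (h : k ≤ n) (h0 : ∀ e, 1 ≤ e → k % p ^ e ≤ n % p ^ e) :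
    ¬ p ∣ n.choose k := by
  intro hd
  have h1 := (hp.out.dvd_iff_one_le_factorization (Nat.choose_pos h).ne').1 hd
  have h2 : ∑ e ∈ Ico 1 (n + 1), cy n k (p ^ e) = 0 :=
    sum_eq_zero fun e he => if_neg (not_lt.2 (h0 e (mem_Ico.1 he).1))
  rw [choose_fact hp.out h le_rfl, h2] at h1
  omega

theorem choose_add_pow {E m : ℕ} (hm : m < p ^ E) : ∃ K, (p ^ E + m).choose m = 1 + p * K := by
  rw [Nat.add_choose_eq, ← add_sum_erase _ _ (a := (0, m)) (by simp)]
  obtain ⟨K, hK⟩ : p ∣ ∑ x ∈ (antidiagonal m).erase (0, m), (p ^ E).choose x.1 * m.choose x.2 := by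
    refine dvd_sum fun x hx => Dvd.dvd.mul_right ?_ _
    rw [mem_erase, HasAntidiagonal.mem_antidiagonal] at hx
    refine hp.out.dvd_choose_pow (fun h => hx.1 (Prod.ext h (by omega))) (by omega)
  exact ⟨K, by simp [hK]⟩

/-- The case of three dominant terms. -/
theorem witness_three (hodd : p % 2 = 1) {r E c : ℕ} (hE : E = Nat.log p (2 * r + 1)) (hE1 : 1 ≤ E)
    (hb : ¬ p ^ E ≤ 2 * (r % p ^ E) + 1) (hc : vl p r E = c + 1) :
    ∃ s, ((p ^ c : ℕ) : ℚ) * uu r s ∉ (Rat.padicValuation p).integer := by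
  have hp1 := hp.out.one_lt
  have hpo : ∀ e, p ^ e % 2 = 1 := fun e => Nat.odd_iff.1 (Nat.odd_iff.2 hodd).pow
  have hpos : ∀ e, 0 < p ^ e := fun e => pow_pos (by omega) e
  have hQ : ∀ e, 1 ≤ e → 1 < p ^ e := fun e he => Nat.one_lt_pow (by omega) hp1
  obtain ⟨s, hs⟩ : ∃ s, s + 1 = p ^ E := ⟨p ^ E - 1, by have := hpos E; omega⟩
  set ρ := r % p ^ E with hρ
  obtain ⟨i, hi⟩ : ∃ i, 2 * i = 2 * ρ + 1 + p ^ E := ⟨ρ + (p ^ E + 1) / 2, by have := hpo E; omega⟩
  have hoE := hpo E
  obtain ⟨j, hj⟩ : ∃ j, i + j = s := ⟨s - i, by omega⟩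
  have hg : ∀ e, 1 ≤ e → (p ^ e ∣ s + 1 ↔ e ≤ E) := fun e _ => by
    rw [hs, Nat.pow_dvd_pow_iff_le_right hp1]
  have hsE : s % p ^ E = s := Nat.mod_eq_of_lt (by omega)
  have hbE : bw r s (p ^ E) = 1 := by
    unfold bw
    rw [hsE, if_pos hs, if_neg (by omega)]
  have hij : i ≠ j := by omega
  refine ⟨s, rest_mem (g := E) (f := E) (D := {(i, i), (i, j), (j, i)}) hE.le hg hE1 hbE.ge hc.le
    ?_ (fun i' j' hi1 hj1 hne => ?_) ?_⟩
  · intro x hx
    simp only [mem_insert, mem_singleton] at hx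
    rw [mem_product, mem_range, mem_range]
    rcases hx with rfl | rfl | rfl <;> dsimp only <;> omega
  · have e1 : i' % p ^ E = i' := Nat.mod_eq_of_lt (by omega)
    have e2 : j' % p ^ E = j' := Nat.mod_eq_of_lt (by omega)
    have R := (residues (hQ E hE1) s i' j').2.2.2.2.2
    simp only [mem_insert, mem_singleton, Prod.mk.injEq] at hne
    rw [hbE]
    unfold dv cy
    simp only [res_dd (hpos E), ← hρ]
    rw [e1, e2] at R
    rw [e1, e2, hsE]
    generalize (i' + j') % p ^ E = a at *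
    generalize (2 * s + 1) % p ^ E = b at *
    split_ifs <;> omega
  · obtain ⟨W, M, hM, hWM⟩ := Nat.exists_eq_pow_mul_and_not_dvd (n := ρ + 1) (by omega) p hp1.ne'
    have hWE : W < E := by
      have : p ^ W ≤ ρ + 1 := Nat.le_of_dvd (by omega) ⟨M, hWM⟩
      exact (Nat.pow_lt_pow_iff_right hp1).1 (by omega)
    have hr : p ^ E * (r / p ^ E) + ρ = r := Nat.div_add_mod r _
    have hv : vl p r E = E + W := by
      unfold vl
      rw [← hE]
      have : ∀ e ∈ Icc 1 E, lv p r E e = 1 + if e ≤ W then 1 else 0 := fun e he => by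
        rw [mem_Icc] at he
        have e1 : p ^ e ∣ r + 1 ↔ e ≤ W := by
          rw [← hr, add_assoc, Nat.dvd_add_right ((pow_dvd_pow p he.2).mul_right _), hWM]
          refine ⟨fun h => ?_, fun h => (pow_dvd_pow p h).mul_right _⟩
          by_contra hcon
          have h2 : p ^ W * p ∣ p ^ W * M := by
            rw [← pow_succ]
            exact (pow_dvd_pow p (by omega)).trans h
          exact hM (Nat.dvd_of_mul_dvd_mul_left (hpos W) h2)
        unfold lv
        rw [if_pos he.2]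
        simp only [e1]
        split_ifs <;> rfl
      rw [sum_congr rfl this, sum_add_distrib, ← card_filter]
      have : (Icc 1 E).filter (· ≤ W) = Icc 1 W := by
        ext e
        simp only [mem_filter, mem_Icc]
        omega
      rw [this]
      simp
    generalize r / p ^ E = q at hr
    have hq1 : 1 ≤ q := by
      have := small_level (p := p) (r := r) hE.le
      by_contra hcon
      have : q = 0 := by omega
      rw [this] at hr
      omega
    have hq2 : 2 * q < p := by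
      have h1 := big_level hp.out (r := r) (e := E + 1) (by omega)
      have h2 : p ^ E * (2 * q) < p ^ E * p := by
        rw [← pow_succ]
        have : p ^ E * (2 * q) = 2 * (p ^ E * q) := by ring
        omega
      exact lt_of_mul_lt_mul_left h2 (Nat.zero_le _)
    obtain ⟨K, hK⟩ := choose_add_pow (p := p) (E := E) (m := 2 * ρ + 1) (by omega)
    have hC : (i + i).choose s * (2 * ρ + 2) = p ^ E * (1 + p * K) := by
      have h1 : i + i = p ^ E + (2 * ρ + 1) := by omega
      have h2 : (i + i).choose s = (i + i).choose (2 * ρ + 1 + 1) :=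
        Nat.choose_symm_of_eq_add (by omega)
      rw [h2, Nat.choose_succ_right_eq, h1, hK, Nat.add_sub_cancel, mul_comm]
    obtain ⟨Y, hY⟩ : ∃ Y, p ^ E = p ^ W * (p * Y) :=
      ⟨p ^ (E - W - 1), by rw [← pow_succ', ← pow_add]; congr 1; omega⟩
    have hu1 : ¬ p ∣ (2 * s + 1).choose s := choose_unit (by omega) fun e he => by
      have R := residues (hQ e he) s s s
      by_cases h : e ≤ E
      · have := (dvd_succ_nat (hQ e he)).1 ((hg e he).2 h)
        omega
      · have e1 : p ^ E * 2 ≤ p ^ e := by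
          calc p ^ E * 2 ≤ p ^ E * p := Nat.mul_le_mul_left _ hp1
            _ = p ^ (E + 1) := (pow_succ _ _).symm
            _ ≤ p ^ e := Nat.pow_le_pow_right (by omega) (by omega)
        have : s % p ^ e = s := Nat.mod_eq_of_lt (by omega)
        omega
    have hu2 : ¬ p ∣ s.choose i := choose_unit (by omega) fun e he => by
      by_cases h : e ≤ E
      · have := (dvd_succ_nat (hQ e he)).1 ((hg e he).2 h)
        have := Nat.mod_lt i (hpos e)
        omega
      · have e1 : p ^ E ≤ p ^ e := Nat.pow_le_pow_right (by omega) (by omega)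
        rw [Nat.mod_eq_of_lt (show s < p ^ e by omega), Nat.mod_eq_of_lt (show i < p ^ e by omega)]
        omega
    have hd0 : dd i (r + 1) = (p : ℤ) ^ E * (1 - 2 * q) := by
      unfold dd
      zify at hi hr
      push_cast
      linear_combination hi + 2 * hr
    have hd1 : dd j (r + 1) = (p : ℤ) ^ W * (p * Y * (1 - 2 * q) - 4 * M) := by
      unfold dd
      zify at hi hr hj hs hY hWM
      push_cast
      linear_combination 2 * hj - hi + 2 * hr + 2 * hs + (1 - 2 * q) * hY - 4 * hWM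
    set X : ℤ := (i + i).choose s * dd j (r + 1) + 2 * dd i (r + 1) with hX
    have hXZ : 2 * M * X = (p : ℤ) ^ E *
        (p * ((1 + p * K) * Y * (1 - 2 * q) - 4 * M * K) - 8 * M * q) := by
      rw [hX, hd0, hd1]
      zify at hC hWM
      linear_combination (p * Y * (1 - 2 * q) - 4 * M) * hC -
        2 * ((i + i).choose s : ℤ) * (p * Y * (1 - 2 * q) - 4 * M) * hWM
    have hpZ : Prime (p : ℤ) := Nat.prime_iff_prime_int.1 hp.out
    have key := not_mem_of_dvd (p := p) (k := c + (E + 1))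
      (n := (p : ℤ) ^ c * ((2 * s + 1).choose s * (s.choose i * (s.choose i * X))))
      (d := dd i (r + 1) * dd i (r + 1) * dd j (r + 1))
      (mul_ne_zero (mul_ne_zero (dd_ne _ _) (dd_ne _ _)) (dd_ne _ _))
      (by
        rw [show c + (E + 1) = E + E + W by omega, pow_add, pow_add, hd0, hd1]
        exact mul_dvd_mul (mul_dvd_mul (dvd_mul_right _ _) (dvd_mul_right _ _)) (dvd_mul_right _ _))
      (fun h => by
        rw [pow_add] at h
        have h1 := (mul_dvd_mul_iff_left (pow_ne_zero c hpZ.ne_zero)).1 h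
        have h2 := hpZ.pow_dvd_of_dvd_mul_left _ (fun h => hu1 (Int.natCast_dvd_natCast.1 h)) h1
        have h3 := hpZ.pow_dvd_of_dvd_mul_left _ (fun h => hu2 (Int.natCast_dvd_natCast.1 h)) h2
        have h4 := hpZ.pow_dvd_of_dvd_mul_left _ (fun h => hu2 (Int.natCast_dvd_natCast.1 h)) h3
        have h5 := h4.mul_left (2 * (M : ℤ))
        rw [hXZ, pow_succ] at h5
        have h6 := (mul_dvd_mul_iff_left (pow_ne_zero E hpZ.ne_zero)).1 h5
        have h7 : (p : ℤ) ∣ 8 * M * q := (dvd_sub_right (dvd_mul_right _ _)).1 h6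
        have h8 : p ∣ 2 * (2 * (M * (2 * q))) := by
          have : p ∣ 8 * M * q := by exact_mod_cast h7
          convert this using 1
          ring
        have h9 : ¬ p ∣ 2 := fun h => by
          have := Nat.le_of_dvd two_pos h
          omega
        rw [hp.out.dvd_mul, hp.out.dvd_mul, hp.out.dvd_mul] at h8
        have := fun h : p ∣ 2 * q => Nat.le_of_dvd (by omega) h
        rcases h8 with h | h | h | h
        · exact h9 h
        · exact h9 h
        · exact hM h
        · have := this h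
          omega)
    convert key using 2
    rw [sum_insert (by simp [hij]), sum_insert (by simp [hij]), sum_singleton]
    have h1 : s.choose j = s.choose i := (Nat.choose_symm_of_eq_add hj.symm).symm
    have a := dd_ne' i (r + 1)
    have b := dd_ne' j (r + 1)
    simp only [tm, kk, hX, h1, hj, add_comm j i, Nat.choose_self]
    push_cast
    field_simp
    ring

theorem witness (hodd : p % 2 = 1) {r c : ℕ} (hc : ex p r = c + 1) :
    ∃ s, ((p ^ c : ℕ) : ℚ) * uu r s ∉ (Rat.padicValuation p).integer := by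
  classical
  obtain ⟨g, hgE, hv, h3, h2⟩ := exists_max p r
  set E := Nat.log p (2 * r + 1) with hE
  have hE1 : 1 ≤ E := by
    by_contra hcon
    have : vl p r g = 0 := by
      unfold vl
      rw [← hE, Icc_eq_empty (by omega), sum_empty]
    omega
  by_cases hcase : g = E ∧ ¬ p ^ E ≤ 2 * (r % p ^ E) + 1
  · exact witness_three hodd hE hE1 hcase.2 (by rw [← hcase.1, hv, hc])
  · obtain ⟨f0, h0, h0', h0''⟩ : ∃ f, (g ≤ f ∧ 1 ≤ f ∧ (g < E → g < f)) ∧ f ≤ E ∧
        p ^ f ≤ 2 * (r % p ^ f) + 1 := by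
      rcases hgE.eq_or_lt with h | h
      · exact ⟨E, by omega, le_rfl, by tauto⟩
      · exact ⟨g + 1, by omega, h, (h3 h).2⟩
    set f := Nat.findGreatest (fun f => p ^ f ≤ 2 * (r % p ^ f) + 1) E with hf
    have a1 : f0 ≤ f := Nat.le_findGreatest h0' h0''
    have a2 : f ≤ E := Nat.findGreatest_le E
    refine witness_one hodd (g := g) (f := f) (by omega) (by omega) a2
      (Nat.findGreatest_spec (P := fun f => p ^ f ≤ 2 * (r % p ^ f) + 1) h0' h0'')
      (fun e he => ?_) (fun h => h3 (by omega)) h2 (by rw [hv, hc])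
    by_cases h : e ≤ E
    · exact Nat.findGreatest_is_greatest (P := fun f => p ^ f ≤ 2 * (r % p ^ f) + 1) he h
    · exact not_b2 hp.out (by omega)

end Pool.Agent.Lib.MP_6f4751_nt
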