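import Pool.Agent.Lib.MP_6f4751_nt.Exact2

/-! The loss never exceeds `ex p r`; the exact multiplier. -/

set_option autoImplicit false

namespace Pool.Agent.Lib.MP_6f4751_nt

open Finset

section mem
variable {p : ℕ} [hp : Fact p.Prime] {r A : ℕ}

/-- Budget when all small levels divide `s + 1`. -/
def cw (r Q : ℕ) : ℕ := if Q ≤ 2 * r + 1 then (if Q ∣ r + 1 then 2 else 1) else 0

theorem cw_small {Q : ℕ} (h1 : Q % 2 = 1) (h2 : Q < 2 * (r + 1)) :
    dv ((2 * (r + 1) : ℕ) : ℤ) Q + 1 ≤ cw r Q := by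
  unfold cw dv
  rw [if_pos (show Q ≤ 2 * r + 1 by omega)]
  by_cases h : Q ∣ r + 1
  · rw [if_pos h]
    split_ifs <;> omega
  · rw [if_neg h, if_neg]
    intro h3
    exact h ((Nat.coprime_two_right.2 (Nat.odd_iff.2 h1)).dvd_of_dvd_mul_left
      (Int.natCast_dvd_natCast.1 h3))

theorem mem_chain' (LA : Lo p A (cw r)) {s N : ℕ} (hs : s < N) (hodd : ∀ e, p ^ e % 2 = 1)
    (hc : ∀ e, 1 ≤ e → p ^ e < 2 * (r + 1) → s % p ^ e + 1 = p ^ e) :
    (A : ℚ) * (2 * s + 1).choose s * cS s N (r + 1) ∈ (Rat.padicValuation p).integer := by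
  set M : ℚ := (A : ℚ) * (2 * s + 1).choose s / (2 * (r + 1) : ℕ) with hM
  have hr : ((2 * (r + 1) : ℕ) : ℤ) ≠ 0 := by omega
  have LC := Lo.choose hp.out (2 * s + 1) s
  have hW : ∀ α β, 1 ≤ α → α ≤ r + 1 → β ≤ r + 1 →
      M * WS s N α β ∈ (Rat.padicValuation p).integer := by
    intro α β h1 hα hβ
    unfold WS
    simp only [mul_sum]
    refine Subring.sum_mem _ fun j _ => Subring.sum_mem _ fun i _ => ?_
    have := mem_of_level (p := p) (LA.mul (LC.mul ((((Lo.self hp.out (j + 1)).mul
      (Lo.choose hp.out (s + 1) i)).mul (Lo.choose hp.out s j)).mul (Lo.choose hp.out (i + j) s))))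
      ((Up.self hp.out hr).mul ((Up.self hp.out (dd_ne i α)).mul (Up.self hp.out (dd_ne j β))))
      (fun e he => by
        have hQ : 1 < p ^ e := Nat.one_lt_pow (by omega) hp.out.one_lt
        rcases lt_or_ge (p ^ e) (2 * (r + 1)) with h | h
        · have := cw_small (hodd e) h
          have := dv_le_one (dd i α) (p ^ e)
          have := dv_le_one (dd j β) (p ^ e)
          have := level_W' (i := i) (j := j) hQ (hc e he h)
          omega
        · have := level_W (s := s) (i := i) (j := j) (β := β) hQ h1 (by omega) (by omega)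
          have := dv_big (hodd e) h
          unfold dd
          omega)
    convert this using 1
    rw [hM]
    push_cast
    have := dd_ne' i α
    have := dd_ne' j β
    field_simp
  have hU : ∀ α, 1 ≤ α → α ≤ r + 1 → M * US s N α ∈ (Rat.padicValuation p).integer := by
    intro α h1 hα
    unfold US
    simp only [mul_sum]
    refine Subring.sum_mem _ fun j _ => Subring.sum_mem _ fun i _ => ?_
    have := mem_of_level (p := p) (LA.mul (LC.mul ((Lo.choose hp.out (s + 1) i).mul
      ((Lo.choose hp.out s j).mul (Lo.choose hp.out (i + j) s)))))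
      ((Up.self hp.out hr).mul (Up.self hp.out (dd_ne i α)))
      (fun e he => by
        have hQ : 1 < p ^ e := Nat.one_lt_pow (by omega) hp.out.one_lt
        rcases lt_or_ge (p ^ e) (2 * (r + 1)) with h | h
        · have := cw_small (hodd e) h
          have := dv_le_one (dd i α) (p ^ e)
          omega
        · have := level_U (s := s) (i := i) hQ h1 (by omega)
          have := dv_big (hodd e) h
          unfold dd
          omega)
    convert this using 1
    rw [hM]
    push_cast
    have := dd_ne' i α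
    field_simp
  have hP : ∀ α, α ≤ r → M * UP s N α ∈ (Rat.padicValuation p).integer := by
    intro α hα
    unfold UP
    simp only [mul_sum]
    refine Subring.sum_mem _ fun i _ => Subring.sum_mem _ fun j _ => ?_
    have := mem_of_level (p := p) (LA.mul (LC.mul (((Lo.choose hp.out s i).mul
      (Lo.choose hp.out (s + 1) j)).mul (Lo.choose hp.out (i + j) s))))
      ((Up.self hp.out hr).mul (Up.self hp.out (dd_ne i α)))
      (fun e he => by
        have hQ : 1 < p ^ e := Nat.one_lt_pow (by omega) hp.out.one_lt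
        rcases lt_or_ge (p ^ e) (2 * (r + 1)) with h | h
        · have := cw_small (hodd e) h
          have := dv_le_one (dd i α) (p ^ e)
          omega
        · have := level_U' (s := s) (i := i) (j := j) (α := α) hQ (by omega)
          have := dv_big (hodd e) h
          unfold dd
          omega)
    convert this using 1
    rw [hM]
    push_cast
    have := dd_ne' i α
    field_simp
  have key : ∀ α, α ≤ r + 1 → M * (2 * α * cS s N α) ∈ (Rat.padicValuation p).integer := by
    intro α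
    induction α with
    | zero => intro _; simp
    | succ α ih =>
      intro hα
      rw [H_step hs, mul_add, mul_add, mul_sub, mul_sub]
      exact add_mem (ih (by omega)) (add_mem (sub_mem (sub_mem (hW _ _ (by omega) hα hα)
        (hW _ _ (by omega) hα (by omega))) (hU _ (by omega) hα)) (hP _ (by omega)))
  convert key (r + 1) le_rfl using 1
  rw [hM]
  push_cast
  field_simp

theorem mem_upper (hA : p % 2 = 1 → ex p r ≤ A.factorization p) (s : ℕ) :
    (A : ℚ) * uu r s ∈ (Rat.padicValuation p).integer := by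
  classical
  have hp1 := hp.out.one_lt
  set E := Nat.log p (2 * r + 1) with hE
  by_cases hodd : p % 2 = 1
  · have hpo : ∀ e, p ^ e % 2 = 1 := fun e => Nat.odd_iff.1 (Nat.odd_iff.2 hodd).pow
    by_cases hc : p ^ (E + 1) ∣ s + 1
    · rw [uu, ← mul_assoc]
      refine mem_chain' (Or.inr ⟨E + 1, fun b hb => ?_⟩) (Nat.lt_succ_self s) hpo fun e he h => ?_
      · refine le_trans (le_of_eq ?_) ((vl_le_ex (g := E) le_rfl).trans (hA hodd))
        refine sum_level (w := fun e => cw r (p ^ e)) hb (fun e _ he => ?_) fun e he => ?_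
        · unfold cw lv
          rw [if_pos (small_level he), if_pos he]
        · exact if_neg (not_le.2 (big_level hp.out he))
      · rw [← dvd_succ_nat (Nat.one_lt_pow (by omega) hp1)]
        refine (pow_dvd_pow p ?_).trans hc
        have := big_level hp.out (r := r) (e := E + 1) (by omega)
        exact ((Nat.pow_lt_pow_iff_right hp1).1 (show p ^ e < p ^ (E + 1) by omega)).le
    · set g := Nat.findGreatest (fun g => p ^ g ∣ s + 1) E with hg
      have a1 : g ≤ E := Nat.findGreatest_le E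
      have a2 : p ^ g ∣ s + 1 :=
        Nat.findGreatest_spec (P := fun g => p ^ g ∣ s + 1) (Nat.zero_le E) (by simp)
      have a3 : ∀ e, 1 ≤ e → (p ^ e ∣ s + 1 ↔ e ≤ g) := fun e _ => by
        refine ⟨fun h => ?_, fun h => (pow_dvd_pow p h).trans a2⟩
        by_cases he : e ≤ E
        · exact Nat.le_findGreatest he h
        · exact absurd ((pow_dvd_pow p (by omega)).trans h) hc
      rw [uu_eq, mul_sum]
      refine Subring.sum_mem _ fun x _ => tm_mem (w := bw r s) (Or.inr ⟨E + 1, fun b hb => ?_⟩)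
        fun e he => level_bw (Nat.one_lt_pow (by omega) hp1) r s x.1 x.2
      rw [sum_bw hp.out hb a1 a3]
      exact (vl_le_ex a1).trans (hA hodd)
  · rw [uu_eq, mul_sum]
    refine Subring.sum_mem _ fun x _ => tm_mem (w := fun _ => 0) (Or.inr ⟨0, fun b _ => by simp⟩)
      fun e he => ?_
    have h2 : ¬ p ^ e % 2 = 1 := fun h =>
      hodd (Nat.odd_iff.1 ((Nat.odd_pow_iff (by omega)).1 (Nat.odd_iff.2 h)))
    have a : dv (dd x.1 (r + 1)) (p ^ e) = 0 := if_neg fun h => h2 (odd_of_dvd h)
    have b : dv (dd x.2 (r + 1)) (p ^ e) = 0 := if_neg fun h => h2 (odd_of_dvd h)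
    omega

theorem pow_ex_dvd (hodd : p % 2 = 1) {a : ℤ} (ha : ∀ s, ∃ z : ℤ, (a : ℚ) * uu r s = z) :
    (p : ℤ) ^ ex p r ∣ a := by
  rcases Nat.eq_zero_or_pos (ex p r) with h | h
  · rw [h, pow_zero]
    exact one_dvd _
  obtain ⟨c, hc⟩ : ∃ c, ex p r = c + 1 := ⟨ex p r - 1, by omega⟩
  obtain ⟨s, hs⟩ := witness hodd hc
  obtain ⟨z, hz⟩ := ha s
  by_contra hcon
  have ha0 : a ≠ 0 := by rintro rfl; exact hcon (dvd_zero _)
  obtain ⟨k, a', h1, h2⟩ := Nat.exists_eq_pow_mul_and_not_dvd (Int.natAbs_ne_zero.2 ha0) p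
    hp.out.one_lt.ne'
  have hk : k ≤ c := by
    by_contra h3
    apply hcon
    rw [hc, ← Int.dvd_natAbs, h2]
    push_cast
    exact (pow_dvd_pow _ (by omega)).mul_right _
  apply hs
  have ha' : (a' : ℚ) ≠ 0 := by
    have : a' ≠ 0 := by rintro rfl; exact h1 (dvd_zero _)
    exact_mod_cast this
  obtain ⟨z', hz'⟩ : ∃ z' : ℤ, ((a.natAbs : ℕ) : ℚ) * uu r s = z' := by
    rcases Int.natAbs_eq a with h4 | h4
    · have : (a : ℚ) = ((a.natAbs : ℕ) : ℚ) := by
        rw [← Int.cast_natCast, ← h4]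
      exact ⟨z, by rw [← hz, this]⟩
    · refine ⟨-z, ?_⟩
      have : (a : ℚ) = -((a.natAbs : ℕ) : ℚ) := by
        rw [← Int.cast_natCast, ← Int.cast_neg, ← h4]
      rw [Int.cast_neg, ← hz, this]
      ring
  obtain ⟨t, rfl⟩ := Nat.exists_eq_add_of_le hk
  have e : ((p ^ (k + t) : ℕ) : ℚ) * uu r s = ((p ^ t * z' : ℤ) : ℚ) * (a' : ℚ)⁻¹ := by
    rw [h2] at hz'
    push_cast at hz' ⊢
    rw [← hz']
    field_simp
    ring
  rw [e]
  refine mul_mem (intCast_mem _ _) ?_
  rw [Valuation.mem_integer_iff, Rat.padicValuation_le_one_iff]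
  rwa [Rat.inv_natCast_den_of_pos (Nat.pos_of_ne_zero (by exact_mod_cast ha'))]

end mem

/-- The exact multiplier. -/
def AA (r : ℕ) : ℕ := ∏ p ∈ (range (2 * r + 2)).filter fun p => p.Prime ∧ p ≠ 2, p ^ ex p r

theorem AA_ne (r : ℕ) : AA r ≠ 0 :=
  prod_ne_zero_iff.2 fun _ hp => pow_ne_zero _ (mem_filter.1 hp).2.1.ne_zero

theorem AA_uu (r s : ℕ) : ∃ z : ℤ, (AA r : ℚ) * uu r s = z := by
  set x := (AA r : ℚ) * uu r s with hx
  have : x.den = 1 := by
    rw [Nat.eq_one_iff_not_exists_prime_dvd]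
    intro p hp
    have := Fact.mk hp
    have h := mem_upper (p := p) (r := r) (A := AA r) (fun hodd => by
      by_cases hpr : p < 2 * r + 2
      · rw [← hp.pow_dvd_iff_le_factorization (AA_ne r)]
        exact dvd_prod_of_mem _ (mem_filter.2 ⟨mem_range.2 hpr, hp, by omega⟩)
      · have : ex p r = 0 := by
          simp [ex, vl, Nat.log_of_lt (show 2 * r + 1 < p by omega)]
        omega) s
    rwa [Valuation.mem_integer_iff, Rat.padicValuation_le_one_iff] at h
  exact ⟨x.num, ((Rat.den_eq_one_iff x).1 this).symm⟩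

theorem uu_iff (r : ℕ) (a : ℤ) : (∀ s, ∃ z : ℤ, (a : ℚ) * uu r s = z) ↔ (AA r : ℤ) ∣ a := by
  constructor
  · intro h
    unfold AA
    push_cast
    refine Finset.prod_dvd_of_coprime (fun p hp q hq hpq => ?_) fun p hp => ?_
    · have h1 := (mem_filter.1 hp).2.1
      have h2 := (mem_filter.1 hq).2.1
      exact (Nat.isCoprime_iff_coprime.2 ((Nat.coprime_primes h1 h2).2 hpq)).pow
    · have h1 := (mem_filter.1 hp).2
      have := Fact.mk h1.1
      exact pow_ex_dvd (h1.1.eq_two_or_odd.resolve_left h1.2) h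
  · rintro ⟨b, rfl⟩ s
    obtain ⟨z, hz⟩ := AA_uu r s
    refine ⟨b * z, ?_⟩
    push_cast
    rw [← hz]
    ring

theorem cS_eq {s N : ℕ} (hs : s < N) (α : ℕ) : cS s N α = cS s (s + 1) α := by
  unfold cS
  symm
  have hsub : range (s + 1) ⊆ range N := range_subset_range.2 hs
  refine sum_subset_zero_on_sdiff hsub (fun j hj => sum_eq_zero fun i _ => ?_) fun j _ =>
    sum_subset hsub fun i _ hi => ?_
  · have : s < j := by simpa using (mem_sdiff.1 hj).2
    simp [kk, Nat.choose_eq_zero_of_lt this]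
  · have : s < i := by simpa using hi
    simp [kk, Nat.choose_eq_zero_of_lt this]

theorem sum_eq_uu (r n : ℕ) :
    ∑ k ∈ range n, (2 * k + 1 : ℚ) * (∑ i ∈ range (k + 1), PP k i / dd i (r + 1)) ^ 2
      = n * ∑ s ∈ range n, ((n + s).choose (2 * s + 1) : ℚ) * uu r s := by
  rw [sum_congr rfl fun k hk => by rw [sq_eq (mem_range.1 hk), mul_sum], sum_comm, mul_sum]
  refine sum_congr rfl fun s hs => ?_
  rw [uu, ← cS_eq (mem_range.1 hs), ← mul_assoc, ← mul_assoc, ← sum_PP, sum_mul]
  refine sum_congr rfl fun k _ => ?_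
  ring

theorem tri_iff (u : ℕ → ℚ) : (∀ n : ℕ, 0 < n → ∃ z : ℤ,
    ∑ s ∈ range n, ((n + s).choose (2 * s + 1) : ℚ) * u s = z) ↔ ∀ s, ∃ z : ℤ, u s = z := by
  constructor
  · intro h s
    induction s using Nat.strong_induction_on with
    | _ s ih =>
      obtain ⟨z, hz⟩ := h (s + 1) (by omega)
      choose! y hy using ih
      rw [sum_range_succ, show s + 1 + s = 2 * s + 1 by ring, Nat.choose_self,
        sum_congr rfl fun t ht => by rw [hy t (mem_range.1 ht)]] at hz
      refine ⟨z - ∑ t ∈ range s, (s + 1 + t).choose (2 * t + 1) * y t, ?_⟩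
      push_cast at hz ⊢
      linear_combination hz
  · intro h n _
    choose y hy using h
    refine ⟨∑ s ∈ range n, (n + s).choose (2 * s + 1) * y s, ?_⟩
    push_cast
    exact sum_congr rfl fun s _ => by rw [hy]

theorem exact_main (r : ℕ) (a : ℤ) : (∀ n : ℕ, 0 < n → ∃ z : ℤ, (a : ℚ) *
    (∑ k ∈ range n, (2 * k + 1 : ℚ) * (∑ i ∈ range (k + 1), PP k i / dd i (r + 1)) ^ 2) / n = z) ↔
    (AA r : ℤ) ∣ a := by
  rw [← uu_iff, ← tri_iff fun s => (a : ℚ) * uu r s]
  refine forall_congr' fun n => forall_congr' fun hn => exists_congr fun z => ?_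
  have hn' : (n : ℚ) ≠ 0 := by positivity
  rw [sum_eq_uu, mul_left_comm, mul_div_cancel_left₀ _ hn', mul_sum]
  simp only [mul_left_comm]

end Pool.Agent.Lib.MP_6f4751_nt
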