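import Pool.Agent.Lib.MP_6f4751_nt.Sum

/-! Mixed products of two sums with different shifts. -/

set_option autoImplicit false

namespace Pool.Agent.Lib.MP_6f4751_nt.H87

open Finset

/-- The mixed sum `c`. -/
def cM (s N α β : ℕ) : ℚ := ∑ j ∈ range N, ∑ i ∈ range N, (kk s i j : ℚ) / (dd i α * dd j β)

theorem H_eq2 (s N α β : ℕ) :
    2 * ZS s N α β - (BS s N α + BS s N β) = (2 * (α + β) : ℕ) * cM s N α β := by
  have h1 : BS s N β = ∑ j ∈ range N, ∑ i ∈ range N, (kk s i j : ℚ) / dd j β := by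
    unfold BS
    rw [sum_comm]
    refine sum_congr rfl fun i _ => sum_congr rfl fun j _ => ?_
    rw [kk_comm]
  rw [h1]
  unfold ZS cM BS
  simp only [mul_sum, ← sum_sub_distrib, ← sum_add_distrib]
  refine sum_congr rfl fun j _ => sum_congr rfl fun i _ => ?_
  have a := dd_ne' i α
  have b := dd_ne' j β
  field_simp
  unfold dd
  push_cast
  ring

theorem level_direct2 {Q s i j α β : ℕ} (hQ : 1 < Q) (h1α : 1 ≤ α) (hα : 2 * α ≤ Q)
    (h1β : 1 ≤ β) (hβ : 2 * β ≤ Q) (hs : s % Q + 1 ≠ Q) :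
    dv (2 * i + 1 - 2 * α) Q + dv (2 * j + 1 - 2 * β) Q ≤
      cy (2 * s + 1) s Q + (cy s i Q + cy s j Q + cy (i + j) s Q) := by
  have R := residues hQ s i j
  have hi := res_of_dvd (i := i) (by omega) hα
  have hj := res_of_dvd (i := j) (by omega) hβ
  unfold dv cy
  generalize (s + 1) % Q = a at *
  generalize (2 * s + 1) % Q = b at *
  generalize (i + j) % Q = c at *
  generalize s % Q = d at *
  generalize i % Q = e at *
  generalize j % Q = f at *
  by_cases h1 : (Q : ℤ) ∣ 2 * i + 1 - 2 * α <;> by_cases h2 : (Q : ℤ) ∣ 2 * j + 1 - 2 * β <;>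
    simp only [h1, h2, if_true, if_false, forall_const, IsEmpty.forall_iff] at hi hj ⊢ <;>
    split_ifs <;> omega

section mem
variable {p : ℕ} [hp : Fact p.Prime] {r A α β : ℕ}

theorem mem_direct2 (hA : ∀ m ≤ r, 2 * m + 1 ∣ A) (s N : ℕ) (h1α : 1 ≤ α) (hα : α ≤ r + 1)
    (h1β : 1 ≤ β) (hβ : β ≤ r + 1)
    (hc : ∀ e, 1 ≤ e → p ^ e % 2 = 1 → 2 * (r + 1) ≤ p ^ e → s % p ^ e + 1 ≠ p ^ e) :
    (A : ℚ) ^ 2 * (2 * s + 1).choose s * cM s N α β ∈ (Rat.padicValuation p).integer := by
  unfold cM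
  simp only [mul_sum]
  refine Subring.sum_mem _ fun j _ => Subring.sum_mem _ fun i _ => ?_
  have := mem_of_level (p := p) (((Lo.self hp.out A).mul (Lo.self hp.out A)).mul
    ((Lo.choose hp.out (2 * s + 1) s).mul (((Lo.choose hp.out s i).mul (Lo.choose hp.out s j)).mul
      (Lo.choose hp.out (i + j) s))))
    ((Up.self hp.out (dd_ne i α)).mul (Up.self hp.out (dd_ne j β))) (fun e he => by
      have hQ : 1 < p ^ e := Nat.one_lt_pow (by omega) hp.out.one_lt
      by_cases hodd : p ^ e % 2 = 1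
      · rcases lt_or_ge (p ^ e) (2 * (r + 1)) with h | h
        · have := dvA hA hodd h
          have := dv_le_one (dd i α) (p ^ e)
          have := dv_le_one (dd j β) (p ^ e)
          omega
        · have := level_direct2 (i := i) (j := j) (α := α) (β := β) hQ h1α (by omega) h1β
            (by omega) (hc e he hodd h)
          unfold dd
          omega
      · have a : dv (dd i α) (p ^ e) = 0 := if_neg fun h => hodd (odd_of_dvd h)
        have b : dv (dd j β) (p ^ e) = 0 := if_neg fun h => hodd (odd_of_dvd h)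
        omega)
  convert this using 1
  simp only [kk]
  push_cast
  ring

omit hp in
theorem dv_big2 {Q : ℕ} (hα : α ≤ r + 1) (h1β : 1 ≤ β) (hβ : β ≤ r + 1) (h1 : Q % 2 = 1)
    (h2 : 2 * (r + 1) ≤ Q) : dv ((2 * (α + β) : ℕ) : ℤ) Q = 0 := by
  refine if_neg fun h => ?_
  have h3 : Nat.Coprime Q 2 := (Nat.coprime_two_right).2 (Nat.odd_iff.2 h1)
  have := Nat.le_of_dvd (by omega) (h3.dvd_of_dvd_mul_left (Int.natCast_dvd_natCast.1 h))
  omega

theorem mem_chain2 (hA : ∀ m ≤ r, 2 * m + 1 ∣ A) {s N : ℕ} (hs : s < N) (hα₀ : α ≤ r + 1)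
    (h1β₀ : 1 ≤ β) (hβ₀ : β ≤ r + 1)
    (hodd : ∀ e, p ^ e % 2 = 1)
    (hc : ∀ e, 1 ≤ e → p ^ e < 2 * (r + 1) → s % p ^ e + 1 = p ^ e) :
    (A : ℚ) ^ 2 * (2 * s + 1).choose s * cM s N α β -
      (A : ℚ) ^ 2 * (2 * s + 1).choose s / (2 * (α + β) : ℕ) * (2 * ((-1) ^ (α + β) - 1) * BS s N 0)
      ∈ (Rat.padicValuation p).integer := by
  obtain ⟨D, hD⟩ : ∃ D, D = 2 * (α + β) := ⟨_, rfl⟩
  have big : ∀ {Q : ℕ}, Q % 2 = 1 → 2 * (r + 1) ≤ Q → dv (D : ℤ) Q = 0 := fun h1 h2 =>
    hD ▸ dv_big2 hα₀ h1β₀ hβ₀ h1 h2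
  have hH := H_eq2 s N α β
  rw [← hD] at hH ⊢
  have hr : (D : ℤ) ≠ 0 := by omega
  have hr' : (D : ℚ) ≠ 0 := by exact_mod_cast hr
  set M : ℚ := (A : ℚ) ^ 2 * (2 * s + 1).choose s / D with hM
  have LA := (Lo.self hp.out A).mul (Lo.self hp.out A)
  have LC := Lo.choose hp.out (2 * s + 1) s
  have hW : ∀ α β, 1 ≤ α → α ≤ r + 1 → β ≤ r + 1 →
      M * WS s N α β ∈ (Rat.padicValuation p).integer := by
    intro α β h1 hα hβ
    unfold WS
    simp only [mul_sum]
    refine Subring.sum_mem _ fun j _ => Subring.sum_mem _ fun i _ => ?_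
    have := mem_of_level (p := p) (LA.mul (LC.mul ((((Lo.self hp.out (j + 1)).mul
      (Lo.choose hp.out (s + 1) i)).mul (Lo.choose hp.out s j)).mul (Lo.choose hp.out (i + j) s))))
      ((Up.self hp.out hr).mul ((Up.self hp.out (dd_ne i α)).mul (Up.self hp.out (dd_ne j β))))
      (fun e he => by
        have hQ : 1 < p ^ e := Nat.one_lt_pow (by omega) hp.out.one_lt
        rcases lt_or_ge (p ^ e) (2 * (r + 1)) with h | h
        · have := dvA hA (hodd e) h
          have := dv_le_one (dd i α) (p ^ e)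
          have := dv_le_one (dd j β) (p ^ e)
          have := dv_le_one (D : ℤ) (p ^ e)
          have := level_W' (i := i) (j := j) hQ (hc e he h)
          omega
        · have := level_W (s := s) (i := i) (j := j) (β := β) hQ h1 (by omega) (by omega)
          have := big (hodd e) h
          unfold dd
          omega)
    convert this using 1
    rw [hM]
    push_cast
    have := dd_ne' i α
    have := dd_ne' j β
    field_simp
  have hU : ∀ α, 1 ≤ α → α ≤ r + 1 → M * US s N α ∈ (Rat.padicValuation p).integer := by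
    intro α h1 hα
    unfold US
    simp only [mul_sum]
    refine Subring.sum_mem _ fun j _ => Subring.sum_mem _ fun i _ => ?_
    have := mem_of_level (p := p) (LA.mul (LC.mul ((Lo.choose hp.out (s + 1) i).mul
      ((Lo.choose hp.out s j).mul (Lo.choose hp.out (i + j) s)))))
      ((Up.self hp.out hr).mul (Up.self hp.out (dd_ne i α)))
      (fun e he => by
        have hQ : 1 < p ^ e := Nat.one_lt_pow (by omega) hp.out.one_lt
        rcases lt_or_ge (p ^ e) (2 * (r + 1)) with h | h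
        · have := dvA hA (hodd e) h
          have := dv_le_one (dd i α) (p ^ e)
          have := dv_le_one (D : ℤ) (p ^ e)
          omega
        · have := level_U (s := s) (i := i) hQ h1 (by omega)
          have := big (hodd e) h
          unfold dd
          omega)
    convert this using 1
    rw [hM]
    push_cast
    have := dd_ne' i α
    field_simp
  have hP : ∀ α, α ≤ r → M * UP s N α ∈ (Rat.padicValuation p).integer := by
    intro α hα
    unfold UP
    simp only [mul_sum]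
    refine Subring.sum_mem _ fun i _ => Subring.sum_mem _ fun j _ => ?_
    have := mem_of_level (p := p) (LA.mul (LC.mul (((Lo.choose hp.out s i).mul
      (Lo.choose hp.out (s + 1) j)).mul (Lo.choose hp.out (i + j) s))))
      ((Up.self hp.out hr).mul (Up.self hp.out (dd_ne i α)))
      (fun e he => by
        have hQ : 1 < p ^ e := Nat.one_lt_pow (by omega) hp.out.one_lt
        rcases lt_or_ge (p ^ e) (2 * (r + 1)) with h | h
        · have := dvA hA (hodd e) h
          have := dv_le_one (dd i α) (p ^ e)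
          have := dv_le_one (D : ℤ) (p ^ e)
          omega
        · have := level_U' (s := s) (i := i) (j := j) (α := α) hQ (by omega)
          have := big (hodd e) h
          unfold dd
          omega)
    convert this using 1
    rw [hM]
    push_cast
    have := dd_ne' i α
    field_simp
  have kZ : ∀ a b, a ≤ r + 1 → b ≤ r + 1 → M * (ZS s N a b - (-1) ^ a * ZS s N 0 b) ∈
      (Rat.padicValuation p).integer := by
    intro a b ha hb
    induction a with
    | zero => simp
    | succ a ih =>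
      convert sub_mem (hW (a + 1) b (by omega) ha hb) (ih (by omega)) using 1
      rw [W_eq hs]
      ring
  have kB : ∀ a, a ≤ r + 1 → M * (BS s N a - BS s N 0) ∈ (Rat.padicValuation p).integer := by
    intro a ha
    induction a with
    | zero => simp
    | succ a ih =>
      convert add_mem (ih (by omega)) (sub_mem (hU (a + 1) (by omega) ha) (hP a (by omega))) using 1
      rw [U_eq hs, UP_eq hs]
      ring
  have z0 : ZS s N 0 0 = BS s N 0 := by
    have := H_eq s N 0
    simpa [sub_eq_zero] using this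
  have k1 := kZ α β hα₀ hβ₀
  have k2 := kZ β 0 hβ₀ (by omega)
  rw [ZS_comm s N β 0, z0] at k2
  have k3 : ((2 * (-1) ^ α : ℤ) : ℚ) ∈ (Rat.padicValuation p).integer := intCast_mem _ _
  convert sub_mem (add_mem (add_mem k1 k1) (mul_mem k3 k2)) (add_mem (kB α hα₀) (kB β hβ₀)) using 1
  have e : (A : ℚ) ^ 2 * (2 * s + 1).choose s * cM s N α β = M * (D * cM s N α β) := by
    rw [hM]
    field_simp
  rw [e, ← hH]
  push_cast
  ring

theorem mem_all2 (hA : ∀ m ≤ r, 2 * m + 1 ∣ A) {s N : ℕ} (hs : s < N) (h1α : 1 ≤ α)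
    (hα : α ≤ r + 1) (h1β : 1 ≤ β) (hβ : β ≤ r + 1) (hev : Even (α + β)) :
    (A : ℚ) ^ 2 * (2 * s + 1).choose s * cM s N α β ∈ (Rat.padicValuation p).integer := by
  by_cases hc : ∀ e, 1 ≤ e → p ^ e % 2 = 1 → 2 * (r + 1) ≤ p ^ e → s % p ^ e + 1 ≠ p ^ e
  · exact mem_direct2 hA s N h1α hα h1β hβ hc
  · push Not at hc
    obtain ⟨e, he, hodd, hbig, hdvd⟩ := hc
    have hp1 := hp.out.one_lt
    have hpodd : Odd p := (Nat.odd_pow_iff (by omega)).1 (Nat.odd_iff.2 hodd)
    have := mem_chain2 (p := p) hA hs hα h1β hβ (fun f => Nat.odd_iff.1 hpodd.pow) fun f hf hlt => by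
      have hfe : f ≤ e := ((Nat.pow_lt_pow_iff_right hp1).1 (lt_of_lt_of_le hlt hbig)).le
      rw [← dvd_succ_iff (Nat.one_lt_pow (by omega) hp1)] at hdvd ⊢
      exact (Int.natCast_dvd_natCast.2 (pow_dvd_pow p hfe)).trans hdvd
    simpa [hev.neg_one_pow] using this

end mem

theorem prod_eq {k N : ℕ} (hk : k < N) (α β : ℕ) :
    (∑ i ∈ range (k + 1), PP k i / dd i α) * (∑ i ∈ range (k + 1), PP k i / dd i β) =
      ∑ s ∈ range N, PP k s * cM s N α β := by
  have h1 : ∀ α, ∑ i ∈ range (k + 1), PP k i / dd i α = ∑ i ∈ range N, PP k i / dd i α := fun α => by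
    refine sum_subset (range_subset_range.2 (by omega)) fun i _ hi => ?_
    rw [PP_zero (by simpa using hi), zero_div]
  rw [h1, h1, sum_mul_sum]
  unfold cM
  simp only [mul_sum]
  rw [sum_comm (s := range N) (t := range N)
    (f := fun s j => ∑ i ∈ range N, PP k s * ((kk s i j : ℚ) / (dd i α * dd j β))), sum_comm]
  refine sum_congr rfl fun j _ => ?_
  rw [sum_comm]
  refine sum_congr rfl fun i hi => ?_
  rw [div_mul_div_comm, PP_mul hk (mem_range.1 hi), sum_div]
  refine sum_congr rfl fun s _ => ?_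
  ring

/-- The weighted sum of mixed products. -/
def TM (n α β : ℕ) : ℚ := ∑ k ∈ range n, (2 * k + 1 : ℚ) *
  ((∑ i ∈ range (k + 1), PP k i / dd i α) * (∑ i ∈ range (k + 1), PP k i / dd i β))

theorem TM_eq {n : ℕ} (hn : 0 < n) (α β : ℕ) : TM n α β / n =
    ∑ s ∈ range n, ((n + s).choose (2 * s + 1) : ℚ) * ((2 * s + 1).choose s * cM s n α β) := by
  have : (n : ℚ) ≠ 0 := by positivity
  unfold TM
  rw [div_eq_iff this, sum_congr rfl fun k hk => by rw [prod_eq (mem_range.1 hk), mul_sum], sum_comm,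
    sum_mul]
  refine sum_congr rfl fun s _ => ?_
  have h := sum_PP n s
  calc _ = (∑ k ∈ range n, (2 * k + 1 : ℚ) * PP k s) * cM s n α β := by
        rw [sum_mul]
        exact sum_congr rfl fun k _ => by ring
    _ = _ := by rw [h]; ring

theorem even_case {r A α β : ℕ} (hA : ∀ m ≤ r, 2 * m + 1 ∣ A) (h1α : 1 ≤ α) (hα : α ≤ r + 1)
    (h1β : 1 ≤ β) (hβ : β ≤ r + 1) (hev : Even (α + β)) {n : ℕ} (hn : 0 < n) :
    ∃ z : ℤ, (A : ℚ) ^ 2 * TM n α β / n = z := by
  set x := (A : ℚ) ^ 2 * TM n α β / n with hx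
  have : x.den = 1 := by
    rw [Nat.eq_one_iff_not_exists_prime_dvd]
    intro p hp
    have := Fact.mk hp
    rw [← Rat.padicValuation_le_one_iff, ← Valuation.mem_integer_iff, hx, mul_div_assoc, TM_eq hn,
      mul_sum]
    refine Subring.sum_mem _ fun s hs => ?_
    convert mul_mem (natCast_mem _ ((n + s).choose (2 * s + 1)))
      (mem_all2 (p := p) hA (mem_range.1 hs) h1α hα h1β hβ hev) using 1
    ring
  exact ⟨x.num, ((Rat.den_eq_one_iff x).1 this).symm⟩

theorem not_dvd_inner {h : ℕ} (hp : (2 * h + 1).Prime) : ¬ 2 * h + 1 ∣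
    ∑ j ∈ range (2 * h + 1), kk (2 * h) h j := by
  have h1 : ¬ 2 * h + 1 ∣ (2 * h).choose h := fun c => by
    have := (c.mul_right h.factorial).mul_right (2 * h - h).factorial
    rw [Nat.choose_mul_factorial_mul_factorial (show h ≤ 2 * h by omega), hp.dvd_factorial] at this
    omega
  rw [← add_sum_erase _ _ (show h ∈ range (2 * h + 1) by simp; omega), Nat.dvd_add_left]
  · rw [kk, ← two_mul, Nat.choose_self, mul_one, hp.dvd_mul, or_self]
    exact h1
  · refine dvd_sum fun j hj => ?_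
    rw [mem_erase, mem_range] at hj
    refine Dvd.dvd.mul_left ?_ _
    rcases lt_or_gt_of_ne hj.1 with c | c
    · rw [Nat.choose_eq_zero_of_lt (by omega)]
      exact dvd_zero _
    · exact hp.dvd_choose (by omega) (by omega) (by omega)

theorem odd_case {α β : ℕ} (h1α : 1 ≤ α) (h1β : 1 ≤ β) (hodd : Odd (α + β)) {a : ℤ} (ha : a ≠ 0) :
    ∃ n, 0 < n ∧ ¬ Nat.Coprime ((a : ℚ) * TM n α β / n).den n := by
  obtain ⟨p, hp1, hp⟩ := Nat.exists_infinite_primes (a.natAbs + 2 * (α + β + 1) + 1)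
  have := Fact.mk hp
  obtain ⟨h, rfl⟩ := hp.odd_of_ne_two (by omega)
  refine ⟨_, hp.pos, fun hc => ?_⟩
  have hA : ∀ m ≤ α + β, 2 * m + 1 ∣ (2 * (α + β) + 1).factorial := fun m hm =>
    Nat.dvd_factorial (by omega) (by omega)
  have hA' : ¬ 2 * h + 1 ∣ (2 * (α + β) + 1).factorial := by
    rw [hp.dvd_factorial]
    omega
  generalize (2 * (α + β) + 1).factorial = A at hA hA'
  have h1 : (a : ℚ) * TM (2 * h + 1) α β / (2 * h + 1 : ℕ) ∈
      (Rat.padicValuation (2 * h + 1)).integer := by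
    rw [Valuation.mem_integer_iff, Rat.padicValuation_le_one_iff]
    exact (hp.coprime_iff_not_dvd).1 hc.symm
  rw [mul_div_assoc, TM_eq hp.pos, sum_range_succ] at h1
  have h2 : (A : ℚ) ^ 2 * ∑ s ∈ range (2 * h), ((2 * h + 1 + s).choose (2 * s + 1) : ℚ) *
      ((2 * s + 1).choose s * cM s (2 * h + 1) α β) ∈ (Rat.padicValuation (2 * h + 1)).integer := by
    rw [mul_sum]
    refine Subring.sum_mem _ fun s hs => ?_
    rw [mem_range] at hs
    convert mul_mem (natCast_mem _ ((2 * h + 1 + s).choose (2 * s + 1)))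
      (mem_direct2 (p := 2 * h + 1) hA s (2 * h + 1) h1α (by omega) h1β (by omega)
        fun e he _ _ => ?_) using 1
    · ring
    · have := Nat.le_self_pow (show e ≠ 0 by omega) (2 * h + 1)
      have := Nat.mod_le s ((2 * h + 1) ^ e)
      omega
  have h3 := mem_chain2 (p := 2 * h + 1) hA (show 2 * h < 2 * h + 1 by omega) (α := α) (by omega)
    h1β (by omega) (fun e => Nat.odd_iff.1 (Odd.pow ⟨h, rfl⟩)) fun e he c => by
      have := Nat.le_self_pow (show e ≠ 0 by omega) (2 * h + 1)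
      omega
  have h4 : BS (2 * h) (2 * h + 1) 0 - (∑ j ∈ range (2 * h + 1), kk (2 * h) h j : ℕ) /
      (2 * h + 1 : ℕ) ∈ (Rat.padicValuation (2 * h + 1)).integer := by
    unfold BS
    rw [sum_comm, ← add_sum_erase _ _ (show h ∈ range (2 * h + 1) by simp; omega), ← sum_div]
    have e : (dd h 0 : ℚ) = (2 * h + 1 : ℕ) := by simp [dd]
    rw [e, Nat.cast_sum, add_sub_cancel_left]
    refine Subring.sum_mem _ fun i hi => Subring.sum_mem _ fun j _ => ?_
    rw [mem_erase, mem_range] at hi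
    rw [div_eq_mul_inv]
    refine mul_mem (natCast_mem _ _) ?_
    rw [Valuation.mem_integer_iff, map_inv₀, Rat.padicValuation_cast,
      Int.padicValuation_eq_one_iff.2, inv_one]
    intro c
    have c2 : 2 * h + 1 ∣ 2 * i + 1 := by
      rw [← Int.natCast_dvd_natCast]
      simpa [dd] using c
    obtain ⟨t, ht⟩ := c2
    have : t = 0 ∨ t = 1 ∨ 2 ≤ t := by omega
    rcases this with rfl | rfl | c3
    · omega
    · omega
    · have := Nat.mul_le_mul_left (2 * h + 1) c3
      omega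
  have h5 := not_dvd_inner hp
  have h6 : ¬ 2 * h + 1 ∣ (2 * (2 * h) + 1).choose (2 * h) := fun c => by
    have L := Choose.choose_modEq_choose_mod_mul_choose_div_nat (p := 2 * h + 1)
      (n := 2 * (2 * h) + 1) (k := 2 * h)
    rw [show 2 * (2 * h) + 1 = 2 * h + (2 * h + 1) by ring] at L c
    rw [Nat.add_mod_right, Nat.mod_eq_of_lt (by omega), Nat.choose_self,
      Nat.div_eq_of_lt (show 2 * h < 2 * h + 1 by omega), Nat.choose_zero_right] at L
    exact hp.one_lt.ne' (Nat.dvd_one.1 ((L.dvd_iff dvd_rfl).1 c))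
  rw [show 2 * h + 1 + 2 * h = 2 * (2 * h) + 1 by ring, Nat.choose_self] at h1
  rw [hodd.neg_one_pow] at h3
  generalize (∑ j ∈ range (2 * h + 1), kk (2 * h) h j) = T at h4 h5
  generalize (2 * (2 * h) + 1).choose (2 * h) = C at h1 h3 h6
  have hD : ((2 * (α + β) : ℕ) : ℚ) ≠ 0 := by positivity
  have h7 : ((4 * a * A ^ 2 * C * T : ℤ) : ℚ) / (2 * h + 1 : ℕ) ∈
      (Rat.padicValuation (2 * h + 1)).integer := by
    convert sub_mem (mul_mem (natCast_mem _ (2 * (α + β))) (sub_mem (add_mem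
      (mul_mem (intCast_mem _ a) h2) (mul_mem (intCast_mem _ a) h3))
      (mul_mem (natCast_mem _ (A ^ 2)) h1))) (mul_mem (intCast_mem _ (4 * a * A ^ 2 * C)) h4) using 1
    generalize ((2 * (α + β) : ℕ) : ℚ) = D at hD
    push_cast
    field_simp
    ring
  rw [Valuation.mem_integer_iff, map_div₀, Rat.padicValuation_cast,
    Int.padicValuation_eq_one_iff.2, Rat.padicValuation_self, one_div, ← WithZero.exp_neg,
    ← WithZero.exp_zero, WithZero.exp_le_exp] at h7
  · omega
  · rw [Int.natCast_dvd]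
    simp only [Int.natAbs_mul, Int.natAbs_pow, Int.natAbs_natCast, hp.dvd_mul, not_or]
    refine ⟨⟨⟨⟨fun c => ?_, fun c => ?_⟩, fun c => hA' (hp.dvd_of_dvd_pow c)⟩, h6⟩, h5⟩
    · have := Nat.le_of_dvd (by norm_num) c
      omega
    · have := Nat.le_of_dvd (Int.natAbs_pos.2 ha) c
      omega

end Pool.Agent.Lib.MP_6f4751_nt.H87
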