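import Mathlib

/-! Level by level comparison of `p`-adic valuations (Kummer carries). -/

set_option autoImplicit false

namespace Pool.Agent.Lib.MP_6f4751_nt

open Finset

/-- Lower bound for the valuation of a natural number, level by level. -/
def Lo (p n : ℕ) (w : ℕ → ℕ) : Prop :=
  n = 0 ∨ ∃ b0, ∀ b, b0 ≤ b → ∑ e ∈ Ico 1 b, w (p ^ e) ≤ n.factorization p

/-- Upper bound for the valuation of a nonzero integer, level by level. -/
def Up (p : ℕ) (d : ℤ) (w : ℕ → ℕ) : Prop :=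
  d ≠ 0 ∧ ∃ b0, ∀ b, b0 ≤ b → d.natAbs.factorization p ≤ ∑ e ∈ Ico 1 b, w (p ^ e)

/-- Carry indicator for `n.choose k` at level `Q`. -/
def cy (n k Q : ℕ) : ℕ := if n % Q < k % Q then 1 else 0

/-- Divisibility indicator at level `Q`. -/
def dv (d : ℤ) (Q : ℕ) : ℕ := if (Q : ℤ) ∣ d then 1 else 0

variable {p : ℕ}

theorem Lo.mul {n m : ℕ} {w w' : ℕ → ℕ} (h : Lo p n w) (h' : Lo p m w') :
    Lo p (n * m) (fun Q => w Q + w' Q) := by
  rcases eq_or_ne n 0 with rfl | hn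
  · exact Or.inl (by simp)
  rcases eq_or_ne m 0 with rfl | hm
  · exact Or.inl (by simp)
  obtain ⟨b1, h1⟩ := h.resolve_left hn
  obtain ⟨b2, h2⟩ := h'.resolve_left hm
  refine Or.inr ⟨max b1 b2, fun b hb => ?_⟩
  rw [Nat.factorization_mul hn hm, sum_add_distrib]
  exact Nat.add_le_add (h1 b (le_of_max_le_left hb)) (h2 b (le_of_max_le_right hb))

theorem Up.mul {n m : ℤ} {w w' : ℕ → ℕ} (h : Up p n w) (h' : Up p m w') :
    Up p (n * m) (fun Q => w Q + w' Q) := by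
  obtain ⟨hn, b1, h1⟩ := h
  obtain ⟨hm, b2, h2⟩ := h'
  refine ⟨mul_ne_zero hn hm, max b1 b2, fun b hb => ?_⟩
  rw [Int.natAbs_mul, Nat.factorization_mul (Int.natAbs_ne_zero.2 hn) (Int.natAbs_ne_zero.2 hm),
    sum_add_distrib]
  exact Nat.add_le_add (h1 b (le_of_max_le_left hb)) (h2 b (le_of_max_le_right hb))

theorem fact_eq (hp : p.Prime) {n : ℕ} (hn : n ≠ 0) (b : ℕ) (hb : n ≤ b) :
    n.factorization p = ∑ e ∈ Ico 1 b, dv n (p ^ e) := by
  rw [Nat.factorization_eq_card_pow_dvd_of_lt hp (Nat.pos_of_ne_zero hn) (b := b)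
    (lt_of_le_of_lt hb (Nat.lt_pow_self hp.one_lt)), card_filter]
  refine sum_congr rfl fun e _ => ?_
  simp only [dv, Int.natCast_dvd_natCast]

theorem Lo.self (hp : p.Prime) (n : ℕ) : Lo p n (dv n) := by
  rcases eq_or_ne n 0 with rfl | hn
  · exact Or.inl rfl
  exact Or.inr ⟨n, fun b hb => (fact_eq hp hn b hb).ge⟩

theorem Up.self (hp : p.Prime) {d : ℤ} (hd : d ≠ 0) : Up p d (dv d) := by
  refine ⟨hd, d.natAbs, fun b hb => ?_⟩
  rw [fact_eq hp (Int.natAbs_ne_zero.2 hd) b hb]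
  refine le_of_eq (sum_congr rfl fun e _ => ?_)
  simp only [dv, Int.natCast_natAbs, dvd_abs]

theorem mod_cases (x y : ℕ) {Q : ℕ} (hQ : 0 < Q) :
    (x % Q < Q ∧ y % Q < Q) ∧ (((x + y) % Q = x % Q + y % Q ∧ x % Q + y % Q < Q) ∨
      ((x + y) % Q + Q = x % Q + y % Q ∧ Q ≤ x % Q + y % Q)) := by
  refine ⟨⟨Nat.mod_lt _ hQ, Nat.mod_lt _ hQ⟩, ?_⟩
  have := Nat.add_mod_add_ite x y Q
  split_ifs at this with h
  · exact Or.inr ⟨this, h⟩
  · exact Or.inl ⟨this, by omega⟩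

theorem Lo.choose (hp : p.Prime) (n k : ℕ) : Lo p (n.choose k) (cy n k) := by
  rcases lt_or_ge n k with h | h
  · exact Or.inl (Nat.choose_eq_zero_of_lt h)
  refine Or.inr ⟨Nat.log p n + 1, fun b hb => ?_⟩
  rw [Nat.factorization_choose hp h (b := b) (by omega), card_filter]
  refine sum_le_sum fun e _ => ?_
  have := mod_cases k (n - k) (pow_pos hp.pos e)
  rw [Nat.add_sub_cancel' h] at this
  unfold cy
  generalize (n - k) % p ^ e = a at *
  generalize n % p ^ e = c at *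
  generalize k % p ^ e = d at *
  split_ifs <;> omega

theorem mem_of_level [hp : Fact p.Prime] {n : ℕ} {d : ℤ} {w w' : ℕ → ℕ} (h : Lo p n w)
    (h' : Up p d w') (hle : ∀ e, 1 ≤ e → w' (p ^ e) ≤ w (p ^ e)) :
    (n : ℚ) / (d : ℚ) ∈ (Rat.padicValuation p).integer := by
  rcases eq_or_ne n 0 with rfl | hn
  · simp
  obtain ⟨b1, h1⟩ := h.resolve_left hn
  obtain ⟨hd, b2, h2⟩ := h'
  have key : d.natAbs.factorization p ≤ n.factorization p :=
    (h2 _ (le_max_right b1 b2)).trans ((sum_le_sum fun e he => hle e (mem_Ico.1 he).1).trans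
      (h1 _ (le_max_left b1 b2)))
  rw [Valuation.mem_integer_iff]
  have hn' : (n : ℚ) ≠ 0 := by exact_mod_cast hn
  have hd' : (d : ℚ) ≠ 0 := by exact_mod_cast hd
  simp only [Rat.padicValuation, Valuation.coe_mk, MonoidWithZeroHom.coe_mk, ZeroHom.coe_mk,
    div_ne_zero hn' hd', if_false]
  rw [← WithZero.exp_zero, WithZero.exp_le_exp, padicValRat.div hn' hd', padicValRat.of_nat,
    padicValRat.of_int, padicValInt, ← Nat.factorization_def _ hp.out,
    ← Nat.factorization_def _ hp.out]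
  omega

theorem res_of_dvd {Q i α : ℕ} (hQ : 0 < Q) (hα : 2 * α ≤ Q)
    (h : (Q : ℤ) ∣ 2 * i + 1 - 2 * α) : 2 * (i % Q) + 1 = Q + 2 * α := by
  have h1 : (Q : ℤ) ∣ 2 * (i % Q : ℕ) + 1 - 2 * α := by
    have e : (i : ℤ) = Q * (i / Q : ℕ) + (i % Q : ℕ) := by exact_mod_cast (Nat.div_add_mod i Q).symm
    have : (2 * (i % Q : ℕ) + 1 - 2 * α : ℤ) = (2 * i + 1 - 2 * α) - Q * (2 * (i / Q : ℕ)) := by
      rw [e]; push_cast; ring_nf
    rw [this]
    exact dvd_sub h (dvd_mul_right _ _)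
  have h2 := Nat.mod_lt i hQ
  obtain ⟨c, hc⟩ := h1
  have c1 : -1 < c := by
    by_contra hcon
    have : (Q : ℤ) * c ≤ Q * (-1) := mul_le_mul_of_nonneg_left (by omega) (by positivity)
    omega
  have c2 : c < 2 := by
    by_contra hcon
    have : (Q : ℤ) * 2 ≤ Q * c := mul_le_mul_of_nonneg_left (by omega) (by positivity)
    omega
  interval_cases c <;> omega

theorem odd_of_dvd {Q i α : ℕ} (h : (Q : ℤ) ∣ 2 * i + 1 - 2 * α) : Q % 2 = 1 := by
  obtain ⟨c, hc⟩ := h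
  by_contra hcon
  obtain ⟨t, rfl⟩ : 2 ∣ Q := by omega
  push_cast at hc
  have : (2 * t * c : ℤ) = 2 * (t * c) := by ring
  omega

theorem dvd_succ_iff {Q s : ℕ} (hQ : 1 < Q) : (Q : ℤ) ∣ ((s + 1 : ℕ) : ℤ) ↔ s % Q + 1 = Q := by
  rw [Int.natCast_dvd_natCast, Nat.dvd_iff_mod_eq_zero]
  have := mod_cases s 1 (Q := Q) (by omega)
  rw [Nat.mod_eq_of_lt hQ] at this
  omega

theorem dv_le_one (d : ℤ) (Q : ℕ) : dv d Q ≤ 1 := by unfold dv; split_ifs <;> omega

/-- Residues at level `Q`. -/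
theorem residues {Q : ℕ} (hQ : 1 < Q) (s i j : ℕ) :
    s % Q < Q ∧ i % Q < Q ∧ j % Q < Q ∧
      ((s + 1) % Q = s % Q + 1 ∧ s % Q + 1 < Q ∨ (s + 1) % Q = 0 ∧ s % Q + 1 = Q) ∧
      ((2 * s + 1) % Q = 2 * (s % Q) + 1 ∧ 2 * (s % Q) + 1 < Q ∨
        (2 * s + 1) % Q + Q = 2 * (s % Q) + 1 ∧ Q ≤ 2 * (s % Q) + 1) ∧
      ((i + j) % Q = i % Q + j % Q ∧ i % Q + j % Q < Q ∨
        (i + j) % Q + Q = i % Q + j % Q ∧ Q ≤ i % Q + j % Q) := by
  have h1 := mod_cases s 1 (Q := Q) (by omega)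
  have h2 := mod_cases s (s + 1) (Q := Q) (by omega)
  have h3 := mod_cases i j (Q := Q) (by omega)
  rw [Nat.mod_eq_of_lt hQ] at h1
  rw [show s + (s + 1) = 2 * s + 1 by ring] at h2
  generalize (s + 1) % Q = a at *
  generalize (2 * s + 1) % Q = b at *
  generalize (i + j) % Q = c at *
  generalize s % Q = d at *
  generalize i % Q = e at *
  generalize j % Q = f at *
  omega

/-- Direct estimate at a large level not dividing `s + 1`. -/
theorem level_direct {Q s i j α : ℕ} (hQ : 1 < Q) (h1α : 1 ≤ α) (hα : 2 * α ≤ Q)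
    (hs : s % Q + 1 ≠ Q) :
    dv (2 * i + 1 - 2 * α) Q + dv (2 * j + 1 - 2 * α) Q ≤
      cy (2 * s + 1) s Q + (cy s i Q + cy s j Q + cy (i + j) s Q) := by
  have R := residues hQ s i j
  have hi := res_of_dvd (i := i) (by omega) hα
  have hj := res_of_dvd (i := j) (by omega) hα
  unfold dv cy
  generalize (s + 1) % Q = a at *
  generalize (2 * s + 1) % Q = b at *
  generalize (i + j) % Q = c at *
  generalize s % Q = d at *
  generalize i % Q = e at *
  generalize j % Q = f at *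
  by_cases h1 : (Q : ℤ) ∣ 2 * i + 1 - 2 * α <;> by_cases h2 : (Q : ℤ) ∣ 2 * j + 1 - 2 * α <;>
    simp only [h1, h2, if_true, if_false, forall_const, IsEmpty.forall_iff] at hi hj ⊢ <;>
    split_ifs <;> omega

/-- Claim A at a large level. -/
theorem level_W {Q s i j α β : ℕ} (hQ : 1 < Q) (h1α : 1 ≤ α) (hα : 2 * α ≤ Q) (hβ : 2 * β ≤ Q) :
    dv (2 * i + 1 - 2 * α) Q + dv (2 * j + 1 - 2 * β) Q ≤
      cy (2 * s + 1) s Q + (dv ((j + 1 : ℕ) : ℤ) Q + cy (s + 1) i Q + cy s j Q + cy (i + j) s Q) := by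
  have R := residues hQ s i j
  have hi := res_of_dvd (i := i) (by omega) hα
  have hj := res_of_dvd (i := j) (by omega) hβ
  unfold dv cy
  simp only [dvd_succ_iff hQ]
  generalize (s + 1) % Q = a at *
  generalize (2 * s + 1) % Q = b at *
  generalize (i + j) % Q = c at *
  generalize s % Q = d at *
  generalize i % Q = e at *
  generalize j % Q = f at *
  by_cases h1 : (Q : ℤ) ∣ 2 * i + 1 - 2 * α <;> by_cases h2 : (Q : ℤ) ∣ 2 * j + 1 - 2 * β <;>
    simp only [h1, h2, if_true, if_false, forall_const, IsEmpty.forall_iff] at hi hj ⊢ <;>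
    split_ifs <;> omega

/-- At a level dividing `s + 1` there is always a carry. -/
theorem level_W' {Q s i j : ℕ} (hQ : 1 < Q) (hs : s % Q + 1 = Q) :
    1 ≤ dv ((j + 1 : ℕ) : ℤ) Q + cy (s + 1) i Q + cy s j Q + cy (i + j) s Q := by
  have R := residues hQ s i j
  unfold dv cy
  simp only [dvd_succ_iff hQ]
  generalize (s + 1) % Q = a at *
  generalize (2 * s + 1) % Q = b at *
  generalize (i + j) % Q = c at *
  generalize s % Q = d at *
  generalize i % Q = e at *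
  generalize j % Q = f at *
  split_ifs <;> omega

/-- Claim B, first half. -/
theorem level_U {Q s i α : ℕ} (hQ : 1 < Q) (h1α : 1 ≤ α) (hα : 2 * α ≤ Q) :
    dv (2 * i + 1 - 2 * α) Q ≤ cy (2 * s + 1) s Q + cy (s + 1) i Q := by
  have R := residues hQ s i i
  have hi := res_of_dvd (i := i) (by omega) hα
  unfold dv cy
  generalize (s + 1) % Q = a at *
  generalize (2 * s + 1) % Q = b at *
  generalize (i + i) % Q = c at *
  generalize s % Q = d at *
  generalize i % Q = e at *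
  by_cases h1 : (Q : ℤ) ∣ 2 * i + 1 - 2 * α <;>
    simp only [h1, if_true, if_false, forall_const, IsEmpty.forall_iff] at hi ⊢ <;>
    split_ifs <;> omega

/-- Claim B, second half. -/
theorem level_U' {Q s i j α : ℕ} (hQ : 1 < Q) (hα : 2 * α + 2 ≤ Q) :
    dv (2 * i + 1 - 2 * α) Q ≤
      cy (2 * s + 1) s Q + (cy s i Q + cy (s + 1) j Q + cy (i + j) s Q) := by
  have R := residues hQ s i j
  have hi := res_of_dvd (i := i) (α := α) (Q := Q) (by omega) (by omega)
  unfold dv cy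
  generalize (s + 1) % Q = a at *
  generalize (2 * s + 1) % Q = b at *
  generalize (i + j) % Q = c at *
  generalize s % Q = d at *
  generalize i % Q = e at *
  generalize j % Q = f at *
  by_cases h1 : (Q : ℤ) ∣ 2 * i + 1 - 2 * α <;>
    simp only [h1, if_true, if_false, forall_const, IsEmpty.forall_iff] at hi ⊢ <;>
    split_ifs <;> omega

end Pool.Agent.Lib.MP_6f4751_nt
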