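import Pool.Agent.Lib.MP_6f4751_nt.Chain

/-! Linearisation of the product and summation over `k`. -/

set_option autoImplicit false

namespace Pool.Agent.Lib.MP_6f4751_nt

open Finset

/-- The coefficients of the Legendre type polynomial. -/
def PP (k j : ℕ) : ℚ := ((k + j).choose (2 * j) : ℚ) * ((2 * j).choose j : ℚ)

theorem PP_zero {k j : ℕ} (h : k < j) : PP k j = 0 := by
  simp [PP, Nat.choose_eq_zero_of_lt (show k + j < 2 * j by omega)]

theorem PP_succ (k j : ℕ) : ((j : ℚ) + 1) ^ 2 * PP k (j + 1) = (k - j) * (k + j + 1) * PP k j := by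
  have h1 := ch2 (k + j) (2 * j + 1)
  have h2 := ch1 (k + j) (2 * j)
  have h3 := ch2 (2 * j + 1) j
  have h4 := ch3 (2 * j) j
  unfold PP
  rw [show k + (j + 1) = k + j + 1 by ring, show 2 * (j + 1) = 2 * j + 1 + 1 by ring]
  push_cast at h1 h2 h3 h4 ⊢
  have hj : ((j : ℚ) + 1) ≠ 0 := by positivity
  apply mul_left_cancel₀ hj
  set a : ℚ := ((k + j + 1).choose (2 * j + 1 + 1) : ℚ)
  set b : ℚ := ((2 * j + 1 + 1).choose (j + 1) : ℚ)
  set c : ℚ := ((k + j).choose (2 * j + 1) : ℚ)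
  set d : ℚ := ((k + j).choose (2 * j) : ℚ)
  set e : ℚ := ((2 * j + 1).choose j : ℚ)
  set f : ℚ := ((2 * j).choose j : ℚ)
  linear_combination (j + 1) ^ 2 * a * h3 + (j + 1) ^ 2 * e * h1
    - (j + 1) * (k + j + 1) * c * h4 + (j + 1) * (k + j + 1) * f * h2

theorem kk_rec (t i j : ℕ) : ((j : ℚ) + 1) ^ 2 * kk (t + 1) i (j + 1) =
    (t + 1 - j) * (t + 1 + j + 1) * kk (t + 1) i j + (t + 1) ^ 2 * kk t i j := by
  have h1 := ch2 t j
  have h2 := ch1 (t + 1) j
  have h3 := ch3 t i
  have h4 := ch1 (i + j) t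
  unfold kk
  rw [show i + (j + 1) = i + j + 1 by ring]
  push_cast at h1 h2 h3 h4 ⊢
  rw [pascal (i + j) t]
  set X : ℚ := ((t + 1).choose i : ℚ)
  set Y : ℚ := ((t + 1).choose (j + 1) : ℚ)
  set y1 : ℚ := (t.choose j : ℚ)
  set y2 : ℚ := ((t + 1).choose j : ℚ)
  set x1 : ℚ := (t.choose i : ℚ)
  set u : ℚ := ((i + j).choose t : ℚ)
  set v : ℚ := ((i + j).choose (t + 1) : ℚ)
  linear_combination (t + j + 2) * X * v * h2 + (t + 1 - i) * X * u * h1
    - (t + 1) * y1 * u * h3 - (j + 1) * X * Y * h4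

theorem PP_mul {k N i : ℕ} (hk : k < N) (hi : i < N) (j : ℕ) :
    PP k i * PP k j = ∑ s ∈ range N, PP k s * kk s i j := by
  induction j with
  | zero =>
    rw [sum_eq_single i]
    · simp [kk, PP]
    · intro s _ hs
      rcases lt_or_gt_of_ne hs with h | h
      · simp [kk, Nat.choose_eq_zero_of_lt h]
      · simp [kk, Nat.choose_eq_zero_of_lt h]
    · intro h; exact absurd (mem_range.2 hi) h
  | succ j ih =>
    have hj : ((j : ℚ) + 1) ^ 2 ≠ 0 := by positivity
    apply mul_left_cancel₀ hj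
    have h1 := shift N (fun s => PP k s * ((s - j) * (s + j + 1) * kk s i j))
      (fun s => PP k (s + 1) * ((s + 1) ^ 2 * kk s i j))
      (fun s => PP k s * ((j + 1) ^ 2 * kk s i (j + 1))) (by simp [PP_zero hk])
      (by cases j <;> simp [kk]) (fun s => by rw [kk_rec]; push_cast; ring)
    rw [sum_range_succ, PP_zero hk, zero_mul, add_zero, ← sum_add_distrib] at h1
    calc ((j : ℚ) + 1) ^ 2 * (PP k i * PP k (j + 1))
        = (k - j) * (k + j + 1) * (PP k i * PP k j) := by
          linear_combination PP k i * PP_succ k j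
      _ = ∑ s ∈ range N, (PP k s * ((s - j) * (s + j + 1) * kk s i j) +
            PP k (s + 1) * ((s + 1) ^ 2 * kk s i j)) := by
          rw [ih, mul_sum]
          refine sum_congr rfl fun s _ => ?_
          linear_combination (-(kk s i j : ℚ)) * PP_succ k s
      _ = _ := by
          rw [← h1, mul_sum]
          refine sum_congr rfl fun s _ => ?_
          ring

theorem sum_PP (n s : ℕ) : ∑ k ∈ range n, (2 * k + 1 : ℚ) * PP k s =
    n * ((n + s).choose (2 * s + 1) : ℚ) * (2 * s + 1).choose s := by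
  induction n with
  | zero => simp
  | succ n ih =>
    rw [sum_range_succ, ih]
    have h1 := ch3 (2 * s) s
    have h2 := ch1 (n + s) (2 * s)
    unfold PP
    rw [show n + 1 + s = n + s + 1 by ring, pascal]
    push_cast at h1 h2 ⊢
    have hs : ((s : ℚ) + 1) ≠ 0 := by positivity
    apply mul_left_cancel₀ hs
    set a : ℚ := ((n + s).choose (2 * s + 1) : ℚ)
    set b : ℚ := ((n + s).choose (2 * s) : ℚ)
    set e : ℚ := ((2 * s + 1).choose s : ℚ)
    set f : ℚ := ((2 * s).choose s : ℚ)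
    linear_combination (a + (n + 1) * b) * h1 - f * h2

theorem sq_eq {k N : ℕ} (hk : k < N) (α : ℕ) :
    (∑ i ∈ range (k + 1), PP k i / dd i α) ^ 2 = ∑ s ∈ range N, PP k s * cS s N α := by
  have h1 : ∑ i ∈ range (k + 1), PP k i / dd i α = ∑ i ∈ range N, PP k i / dd i α := by
    refine sum_subset (range_subset_range.2 (by omega)) fun i _ hi => ?_
    rw [PP_zero (by simpa using hi), zero_div]
  rw [h1, sq, sum_mul_sum]
  unfold cS
  simp only [mul_sum]
  rw [sum_comm (s := range N) (t := range N)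
    (f := fun s j => ∑ i ∈ range N, PP k s * ((kk s i j : ℚ) / (dd i α * dd j α))), sum_comm]
  refine sum_congr rfl fun j _ => ?_
  rw [sum_comm]
  refine sum_congr rfl fun i hi => ?_
  rw [div_mul_div_comm, PP_mul hk (mem_range.1 hi), sum_div]
  refine sum_congr rfl fun s _ => ?_
  ring

theorem main {r A : ℕ} (hA : ∀ m ≤ r, 2 * m + 1 ∣ A) (n : ℕ) :
    ∃ z : ℤ, (A : ℚ) ^ 2 * ∑ k ∈ range n, (2 * k + 1 : ℚ) *
      (∑ i ∈ range (k + 1), PP k i / dd i (r + 1)) ^ 2 = n * z := by
  have h1 : ∑ k ∈ range n, (2 * k + 1 : ℚ) * (∑ i ∈ range (k + 1), PP k i / dd i (r + 1)) ^ 2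
      = ∑ s ∈ range n, n * ((n + s).choose (2 * s + 1) : ℚ) * (2 * s + 1).choose s *
        cS s n (r + 1) := by
    rw [sum_congr rfl fun k hk => by rw [sq_eq (mem_range.1 hk), mul_sum], sum_comm]
    refine sum_congr rfl fun s _ => ?_
    rw [← sum_PP, sum_mul]
    refine sum_congr rfl fun k _ => ?_
    ring
  have h2 : ∀ s : ℕ, ∃ z : ℤ, s < n →
      (A : ℚ) ^ 2 * (2 * s + 1).choose s * cS s n (r + 1) = z := by
    intro s
    by_cases hs : s < n
    · obtain ⟨z, hz⟩ := int_c hA hs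
      exact ⟨z, fun _ => hz⟩
    · exact ⟨0, fun h => absurd h hs⟩
  choose z hz using h2
  refine ⟨∑ s ∈ range n, (n + s).choose (2 * s + 1) * z s, ?_⟩
  rw [h1]
  push_cast
  rw [mul_sum, mul_sum]
  refine sum_congr rfl fun s hs => ?_
  rw [← hz s (mem_range.1 hs)]
  ring

theorem odd_dvd_doubleFactorial (r m : ℕ) (h : m ≤ r) :
    2 * m + 1 ∣ (2 * r + 1).doubleFactorial := by
  induction r with
  | zero => obtain rfl : m = 0 := by omega
            simp
  | succ r ih =>
    rw [show 2 * (r + 1) + 1 = 2 * r + 1 + 2 by ring, Nat.doubleFactorial_add_two]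
    rcases Nat.lt_or_ge r m with h1 | h1
    · obtain rfl : m = r + 1 := by omega
      exact Dvd.intro _ rfl
    · exact (ih h1).mul_left _

end Pool.Agent.Lib.MP_6f4751_nt
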